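import Mathlib

set_option autoImplicit false

/-! Averages over short intervals to the right of the points of a set. -/

namespace Pool.Agent.D0H19.PG

open Finset

/-- the average of `f` over `(n + a, n + a + y]` -/
noncomputable def avI (f : ℤ → ℝ) (y a n : ℕ) : ℝ :=
  (∑ h ∈ Ioc 0 y, f (((n + h : ℕ) : ℤ) + (a : ℤ))) / y

/-- the weight which arises from `G` by averaging over the `y` points to the left -/
noncomputable def lft (G : ℕ → ℝ) (M y m : ℕ) : ℝ :=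
  (∑ n ∈ (Icc 1 M).filter (fun n => n < m ∧ m ≤ n + y), G n) / y

lemma lft_le {G : ℕ → ℝ} {M y : ℕ} {K : ℝ} (hK : 0 ≤ K) (hG : ∀ n ∈ Icc 1 M, |G n| ≤ K) (m : ℕ) :
    |lft G M y m| ≤ K := by
  unfold lft
  rcases Nat.eq_zero_or_pos y with h0 | h0
  · subst h0
    simpa using hK
  have hy : (0 : ℝ) < y := by exact_mod_cast h0
  rw [abs_div, abs_of_pos hy, div_le_iff₀ hy]
  refine (abs_sum_le_sum_abs _ _).trans ?_
  have h1 : ∑ n ∈ (Icc 1 M).filter (fun n => n < m ∧ m ≤ n + y), |G n| ≤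
      ∑ _n ∈ (Icc 1 M).filter (fun n => n < m ∧ m ≤ n + y), K :=
    sum_le_sum fun n hn => hG n (mem_filter.1 hn).1
  refine h1.trans ?_
  rw [sum_const, nsmul_eq_mul, mul_comm]
  apply mul_le_mul_of_nonneg_left _ hK
  have h2 : (Icc 1 M).filter (fun n => n < m ∧ m ≤ n + y) ⊆ Ico (m - y) m := by
    intro n hn
    rw [mem_filter] at hn
    rw [mem_Ico]
    omega
  have h3 := card_le_card h2
  rw [Nat.card_Ico] at h3
  have h4 : m - (m - y) ≤ y := by omega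
  exact_mod_cast h3.trans h4

lemma exch (f : ℤ → ℝ) (G : ℕ → ℝ) {M N y a : ℕ} (hN : M + y ≤ N) :
    ∑ n ∈ Icc 1 M, G n * avI f y a n = ∑ m ∈ Icc 1 N, lft G M y m * f ((m : ℤ) + (a : ℤ)) := by
  have e1 : ∀ n ∈ Icc 1 M, G n * avI f y a n =
      ∑ m ∈ Icc 1 N, (if n < m ∧ m ≤ n + y then G n * f ((m : ℤ) + (a : ℤ)) / y else 0) := by
    intro n hn
    rw [mem_Icc] at hn
    rw [← sum_filter]
    unfold avI
    rw [mul_div_assoc', mul_sum, sum_div]
    have e2 : (Icc 1 N).filter (fun m => n < m ∧ m ≤ n + y) = (Ioc 0 y).image (fun h => n + h) := by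
      ext m
      rw [mem_filter, mem_Icc, mem_image]
      constructor
      · rintro ⟨_, h1, h2⟩
        exact ⟨m - n, by rw [mem_Ioc]; omega, by omega⟩
      · rintro ⟨h, h1, h2⟩
        rw [mem_Ioc] at h1
        omega
    rw [e2, sum_image (by intro x _ y _ h; simpa using h)]
  rw [sum_congr rfl e1, sum_comm]
  apply sum_congr rfl
  intro m _
  unfold lft
  rw [sum_filter, div_mul_eq_mul_div, sum_mul, sum_div]
  apply sum_congr rfl
  intro n _
  split_ifs <;> ring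

/-- the one shift estimate for the averages -/
lemma one_avg {M N y : ℕ} (hN : M + y ≤ N) {Ω : Finset ℕ} {p : ℕ → ℝ} (a : ℕ → ℕ) (f g : ℤ → ℝ) (δ : ℝ)
    (hone : ∀ K : ℝ, 0 < K → ∀ G : ℕ → ℝ, (∀ n ∈ Icc 1 N, |G n| ≤ K) →
      ∑ v ∈ Ω, p v * |∑ n ∈ Icc 1 N, G n * (f ((n : ℤ) + ((a v : ℕ) : ℤ)) - g ((n : ℤ) + ((a v : ℕ) : ℤ)))| ≤ K * δ) :
    ∀ K : ℝ, 0 < K → ∀ G : ℕ → ℝ, (∀ n ∈ Icc 1 M, |G n| ≤ K) →
      ∑ v ∈ Ω, p v * |∑ n ∈ Icc 1 M, G n * (avI f y (a v) n - avI g y (a v) n)| ≤ K * δ := by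
  intro K hK G hG
  refine le_trans (le_of_eq ?_) (hone K hK (lft G M y) (fun n _ => lft_le hK.le hG n))
  apply sum_congr rfl
  intro v _
  congr 2
  have h1 := exch f G (a := a v) hN
  have h2 := exch g G (a := a v) hN
  have e1 : ∑ n ∈ Icc 1 M, G n * (avI f y (a v) n - avI g y (a v) n) =
      ∑ n ∈ Icc 1 M, G n * avI f y (a v) n - ∑ n ∈ Icc 1 M, G n * avI g y (a v) n := by
    rw [← sum_sub_distrib]
    apply sum_congr rfl
    intro n _
    ring
  rw [e1, h1, h2, ← sum_sub_distrib]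
  apply sum_congr rfl
  intro n _
  ring

lemma avI_nonneg {f : ℤ → ℝ} (hf : ∀ k, 0 ≤ f k) (y a n : ℕ) : 0 ≤ avI f y a n := by
  unfold avI
  exact div_nonneg (sum_nonneg fun h _ => hf _) (Nat.cast_nonneg _)

lemma avI_le {f : ℤ → ℝ} {y a n : ℕ} {Λ : ℝ} (hΛ : 0 ≤ Λ) (hf : ∀ h ∈ Ioc 0 y, f (((n + h : ℕ) : ℤ) + (a : ℤ)) ≤ Λ) :
    avI f y a n ≤ Λ := by
  unfold avI
  rcases Nat.eq_zero_or_pos y with h0 | h0
  · subst h0
    simpa using hΛ
  have hy : (0 : ℝ) < y := by exact_mod_cast h0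
  rw [div_le_iff₀ hy]
  refine (sum_le_sum hf).trans ?_
  rw [sum_const, nsmul_eq_mul, Nat.card_Ioc, Nat.sub_zero, mul_comm]

lemma avI_mono {f g : ℤ → ℝ} (h : ∀ k, f k ≤ g k) (y a n : ℕ) : avI f y a n ≤ avI g y a n := by
  unfold avI
  exact div_le_div_of_nonneg_right (sum_le_sum fun h' _ => h _) (Nat.cast_nonneg _)

/-- the total of a nonnegative function over the short intervals -/
lemma avI_total {f : ℤ → ℝ} (hf : ∀ k, 0 ≤ f k) {M X y a : ℕ} (hX : M + y + a ≤ X) :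
    ∑ n ∈ Icc 1 M, avI f y a n ≤ ∑ m ∈ Icc 1 X, f (m : ℤ) := by
  rcases Nat.eq_zero_or_pos y with h0 | h0
  · subst h0
    have : ∀ n ∈ Icc 1 M, avI f 0 a n = 0 := by
      intro n _
      unfold avI
      simp
    rw [sum_congr rfl this, sum_const_zero]
    exact sum_nonneg fun m _ => hf _
  have hy : (0 : ℝ) < y := by exact_mod_cast h0
  unfold avI
  rw [← sum_div, div_le_iff₀ hy, sum_comm]
  have h1 : ∀ h ∈ Ioc 0 y, ∑ n ∈ Icc 1 M, f (((n + h : ℕ) : ℤ) + (a : ℤ)) ≤ ∑ m ∈ Icc 1 X, f (m : ℤ) := by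
    intro h hh
    rw [mem_Ioc] at hh
    have e1 : ∑ n ∈ Icc 1 M, f (((n + h : ℕ) : ℤ) + (a : ℤ)) = ∑ m ∈ (Icc 1 M).image (fun n => n + h + a), f (m : ℤ) := by
      rw [sum_image (by intro x _ y _ h; simpa using h)]
      apply sum_congr rfl
      intro n _
      push_cast
      rfl
    rw [e1]
    apply sum_le_sum_of_subset_of_nonneg
    · intro m hm
      rw [mem_image] at hm
      obtain ⟨n, hn, rfl⟩ := hm
      rw [mem_Icc] at hn ⊢
      omega
    · intro m _ _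
      exact hf _
  refine (sum_le_sum h1).trans ?_
  rw [sum_const, nsmul_eq_mul, Nat.card_Ioc, Nat.sub_zero, mul_comm]

end Pool.Agent.D0H19.PG
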