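import Pool.Agent.D0H19.PG.Pr

set_option autoImplicit false

/-! One vector of lengths: from the model to the numbers of primes. -/

namespace Pool.Agent.D0H19.PG

open Finset
open Pool.Agent.H373R2.T7

/-- the normalised number of the primes in `(n, n + y]` -/
noncomputable def Xn (L : ℝ) (n y : ℕ) : ℝ := L * (pin n y : ℝ) / y

lemma Xn_nonneg {L : ℝ} (hL : 0 ≤ L) (n y : ℕ) : 0 ≤ Xn L n y := by
  unfold Xn
  positivity

lemma Xn_le {L : ℝ} (hL : 0 ≤ L) (n y : ℕ) : Xn L n y ≤ L := by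
  unfold Xn
  rcases Nat.eq_zero_or_pos y with h0 | h0
  · subst h0
    simpa using hL
  have hy : (0 : ℝ) < y := by exact_mod_cast h0
  rw [div_le_iff₀ hy]
  apply mul_le_mul_of_nonneg_left _ hL
  exact_mod_cast pin_le n y

lemma prod_Xn {s : ℕ} (L : ℝ) (a y : Fin s → ℕ) (hy : ∀ i, 1 ≤ y i) (n : ℕ) :
    (∏ i, Xn L (n + a i) (y i)) * ∏ i, (y i : ℝ) = (∏ i, (pin (n + a i) (y i) : ℝ)) * L ^ s := by
  have h1 : ∀ i, Xn L (n + a i) (y i) * (y i : ℝ) = (pin (n + a i) (y i) : ℝ) * L := by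
    intro i
    have hy0 : (0 : ℝ) < y i := by exact_mod_cast hy i
    unfold Xn
    field_simp
  rw [← prod_mul_distrib, prod_congr rfl fun i _ => h1 i, prod_mul_distrib, prod_const, card_univ, Fintype.card_fin]

lemma one_y {s : ℕ} {η L : ℝ} (hη : 0 < η) (hη1 : η ≤ 1 / 8) {M X z : ℕ} {A : Finset ℕ} (hA : A ⊆ Icc 1 M) (a y : Fin s → ℕ)
    (hX : ∀ i, M + y i + a i ≤ X) (hX1 : 1 ≤ X) (hlogX : Real.log X ≤ (1 + η) * L) (hL : 1 ≤ L) (hy : ∀ i, 1 ≤ y i)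
    (hQ : ∀ i, ∀ n ∈ A, |avI (lamzI z) (y i) (a i) n - 1| ≤ η)
    (hT : |∑ n ∈ A, (∏ i, avI lamI (y i) (a i) n - ∏ i, avI (lamzI z) (y i) (a i) n)| ≤ η * A.card)
    (hpp : (2 * L) ^ s * (s * (2 * √(X : ℝ) * Real.log X)) ≤ η * A.card)
    (n0 : ℕ) (hn0 : ∀ n, n0 ≤ n → (1 - η) * L ≤ Real.log (n : ℝ)) (hn0c : n0 * L ^ s ≤ η * A.card) :
    (1 - η) ^ s * ∑ n ∈ A, ∏ i, Xn L (n + a i) (y i) ≤ ((1 + η) ^ s + 2 * η) * A.card ∧
    ((1 - η) ^ s - 2 * η) * A.card ≤ (1 + η) ^ s * ∑ n ∈ A, ∏ i, Xn L (n + a i) (y i) := by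
  classical
  have hL0 : 0 ≤ L := by linarith
  have hc0 : (0 : ℝ) ≤ A.card := Nat.cast_nonneg _
  -- the model
  have q1 : ∀ n ∈ A, (1 - η) ^ s ≤ ∏ i, avI (lamzI z) (y i) (a i) n ∧ ∏ i, avI (lamzI z) (y i) (a i) n ≤ (1 + η) ^ s := by
    intro n hn
    have h1 : ∀ i, 1 - η ≤ avI (lamzI z) (y i) (a i) n ∧ avI (lamzI z) (y i) (a i) n ≤ 1 + η := by
      intro i
      have := abs_le.1 (hQ i n hn)
      constructor <;> linarith
    constructor
    · calc (1 - η) ^ s = ∏ _i : Fin s, (1 - η) := by rw [prod_const, card_univ, Fintype.card_fin]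
        _ ≤ _ := prod_le_prod (fun _ _ => by linarith) (fun i _ => (h1 i).1)
    · calc _ ≤ ∏ _i : Fin s, (1 + η) := prod_le_prod (fun i _ => by have := (h1 i).1; linarith) (fun i _ => (h1 i).2)
        _ = (1 + η) ^ s := by rw [prod_const, card_univ, Fintype.card_fin]
  have q2 : (1 - η) ^ s * A.card ≤ ∑ n ∈ A, ∏ i, avI (lamzI z) (y i) (a i) n := by
    rw [mul_comm, ← nsmul_eq_mul, ← sum_const]
    exact sum_le_sum fun n hn => (q1 n hn).1
  have q3 : ∑ n ∈ A, ∏ i, avI (lamzI z) (y i) (a i) n ≤ (1 + η) ^ s * A.card := by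
    rw [mul_comm ((1 + η) ^ s), ← nsmul_eq_mul, ← sum_const]
    exact sum_le_sum fun n hn => (q1 n hn).2
  rw [sum_sub_distrib] at hT
  have q4 := abs_le.1 hT
  -- the prime powers
  have hub : ∀ i, ∀ n ∈ A, avI lamI (y i) (a i) n ≤ 2 * L := by
    intro i n hn
    apply avI_le (by linarith)
    intro h hh
    have hn' := mem_Icc.1 (hA hn)
    rw [mem_Ioc] at hh
    have h1 : (((((n + h : ℕ) : ℤ) + (a i : ℤ)) : ℤ) : ℝ) ≤ (X : ℝ) := by
      have h2 : n + h + a i ≤ X := by have := hX i; omega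
      have h3 : (((n + h : ℕ) : ℤ) + (a i : ℤ)) ≤ (X : ℤ) := by exact_mod_cast h2
      exact_mod_cast h3
    refine (lamI_le _ (X : ℝ) (by exact_mod_cast hX1) h1).trans (hlogX.trans ?_)
    nlinarith
  have hOP : ∀ i n, avI omI (y i) (a i) n ≤ avI lamI (y i) (a i) n := fun i n => avI_mono omI_le _ _ _
  have hO0 : ∀ i n, 0 ≤ avI omI (y i) (a i) n := fun i n => avI_nonneg omI_nonneg _ _ _
  have hP0 : ∀ i n, 0 ≤ avI lamI (y i) (a i) n := fun i n => avI_nonneg lamI_nonneg _ _ _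
  have q5 : ∑ n ∈ A, ∏ i, avI omI (y i) (a i) n ≤ ∑ n ∈ A, ∏ i, avI lamI (y i) (a i) n :=
    sum_le_sum fun n _ => prod_le_prod (fun i _ => hO0 i n) (fun i _ => hOP i n)
  have q6 : ∑ n ∈ A, ∏ i, avI lamI (y i) (a i) n ≤ ∑ n ∈ A, ∏ i, avI omI (y i) (a i) n + η * A.card := by
    have h1 : ∀ n ∈ A, ∏ i, avI lamI (y i) (a i) n ≤ ∏ i, avI omI (y i) (a i) n +
        (2 * L) ^ s * ∑ i, (avI lamI (y i) (a i) n - avI omI (y i) (a i) n) := by
      intro n hn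
      have h2 := prod_diff (univ : Finset (Fin s)) (fun i => avI lamI (y i) (a i) n) (fun i => avI omI (y i) (a i) n) (2 * L)
        (by linarith) (fun i _ => by rw [abs_of_nonneg (hP0 i n)]; exact hub i n hn)
        (fun i _ => by rw [abs_of_nonneg (hO0 i n)]; exact (hOP i n).trans (hub i n hn))
      rw [card_univ, Fintype.card_fin] at h2
      have h3 : ∑ i, |avI lamI (y i) (a i) n - avI omI (y i) (a i) n| = ∑ i, (avI lamI (y i) (a i) n - avI omI (y i) (a i) n) :=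
        sum_congr rfl fun i _ => abs_of_nonneg (by have := hOP i n; linarith)
      rw [h3] at h2
      have := (abs_le.1 h2).2
      linarith
    refine (sum_le_sum h1).trans ?_
    rw [sum_add_distrib, ← mul_sum, sum_comm]
    apply add_le_add le_rfl
    refine le_trans ?_ hpp
    apply mul_le_mul_of_nonneg_left _ (by positivity)
    have h2 : ∀ i ∈ (univ : Finset (Fin s)), ∑ n ∈ A, (avI lamI (y i) (a i) n - avI omI (y i) (a i) n) ≤
        2 * √(X : ℝ) * Real.log X := by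
      intro i _
      have h3 : ∑ n ∈ A, (avI lamI (y i) (a i) n - avI omI (y i) (a i) n) ≤
          ∑ n ∈ Icc 1 M, (avI lamI (y i) (a i) n - avI omI (y i) (a i) n) :=
        sum_le_sum_of_subset_of_nonneg hA fun n _ _ => by have := hOP i n; linarith
      have h4 : ∀ n ∈ Icc 1 M, avI lamI (y i) (a i) n - avI omI (y i) (a i) n = avI (fun k => lamI k - omI k) (y i) (a i) n := by
        intro n _
        unfold avI
        rw [sum_sub_distrib, sub_div]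
      rw [sum_congr rfl h4] at h3
      have h5 := avI_total (f := fun k => lamI k - omI k) (fun k => by have := omI_le k; linarith) (hX i)
      exact h3.trans (h5.trans (total_pp X hX1))
    refine (sum_le_sum h2).trans (le_of_eq ?_)
    rw [sum_const, card_univ, Fintype.card_fin, nsmul_eq_mul]
  constructor
  · -- the upper bound
    have h1 : ∀ n ∈ A, (1 - η) ^ s * ∏ i, Xn L (n + a i) (y i) ≤ ∏ i, avI omI (y i) (a i) n + (if n < n0 then L ^ s else 0) := by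
      intro n hn
      have hn' := mem_Icc.1 (hA hn)
      by_cases h2 : n < n0
      · rw [if_pos h2]
        have h3 : ∏ i, Xn L (n + a i) (y i) ≤ L ^ s := by
          calc ∏ i, Xn L (n + a i) (y i) ≤ ∏ _i : Fin s, L := prod_le_prod (fun i _ => Xn_nonneg hL0 _ _) (fun i _ => Xn_le hL0 _ _)
            _ = L ^ s := by rw [prod_const, card_univ, Fintype.card_fin]
        have h4 : (1 - η) ^ s ≤ 1 := pow_le_one₀ (by linarith) (by linarith)
        have h5 : 0 ≤ ∏ i, avI omI (y i) (a i) n := prod_nonneg fun i _ => hO0 i n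
        have h6 : 0 ≤ ∏ i, Xn L (n + a i) (y i) := prod_nonneg fun i _ => Xn_nonneg hL0 _ _
        nlinarith
      · rw [if_neg h2, add_zero]
        calc (1 - η) ^ s * ∏ i, Xn L (n + a i) (y i) = ∏ i, ((1 - η) * Xn L (n + a i) (y i)) := by
              rw [prod_mul_distrib, prod_const, card_univ, Fintype.card_fin]
          _ ≤ _ := prod_le_prod (fun i _ => mul_nonneg (by linarith) (Xn_nonneg hL0 _ _)) (fun i _ => by
              have h3 := avO_low (y := y i) (a := a i) (n := n) (lam := (1 - η) * L) (by omega) (hn0 _ (by omega))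
              refine le_trans (le_of_eq ?_) h3
              unfold Xn
              ring)
    rw [mul_sum]
    refine (sum_le_sum h1).trans ?_
    rw [sum_add_distrib, ← sum_filter, sum_const, nsmul_eq_mul]
    have h2 : ((A.filter (fun n => n < n0)).card : ℝ) ≤ n0 := by
      have h3 : A.filter (fun n => n < n0) ⊆ range n0 := by
        intro n hn
        rw [mem_filter] at hn
        exact mem_range.2 hn.2
      have h4 := card_le_card h3
      rw [card_range] at h4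
      exact_mod_cast h4
    have h3 : ((A.filter (fun n => n < n0)).card : ℝ) * L ^ s ≤ n0 * L ^ s :=
      mul_le_mul_of_nonneg_right h2 (by positivity)
    linarith [q4.1, q4.2]
  · -- the lower bound
    have h1 : ∀ n ∈ A, ∏ i, avI omI (y i) (a i) n ≤ (1 + η) ^ s * ∏ i, Xn L (n + a i) (y i) := by
      intro n hn
      have hn' := mem_Icc.1 (hA hn)
      calc ∏ i, avI omI (y i) (a i) n ≤ ∏ i, ((1 + η) * Xn L (n + a i) (y i)) := prod_le_prod (fun i _ => hO0 i n) (fun i _ => by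
              have h3 := avO_up (y := y i) (a := a i) (n := n) (Λ := (1 + η) * L) (by
                refine le_trans ?_ hlogX
                apply Real.log_le_log
                · have := hy i
                  have h4 : 0 < n + a i + y i := by omega
                  exact_mod_cast h4
                · have h4 : n + a i + y i ≤ X := by have := hX i; omega
                  exact_mod_cast h4)
              refine h3.trans (le_of_eq ?_)
              unfold Xn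
              ring)
        _ = _ := by rw [prod_mul_distrib, prod_const, card_univ, Fintype.card_fin]
    have h2 := sum_le_sum h1
    rw [← mul_sum] at h2
    linarith [q4.1, q4.2]

/-- interpolation -/
lemma interp {s : ℕ} {η ε L : ℝ} (hη : 0 < η) (hη1 : η ≤ 1 / 8) (hε1 : ε < 1) (hL : 0 ≤ L)
    (e1 : (1 + η) ^ s * ((1 + η) ^ s + 2 * η) ≤ (1 + ε) * (1 - η) ^ s)
    (e2 : (1 - ε) * (1 + η) ^ s ≤ ((1 - η) ^ s - 2 * η) * (1 - 2 * η) ^ s)
    (A : Finset ℕ) (a y g0 g1 : Fin s → ℕ) (h0 : ∀ i, g0 i ≤ y i) (h1 : ∀ i, y i ≤ g1 i)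
    (h2 : ∀ i, (g1 i : ℝ) ≤ (1 + η) * y i) (h3 : ∀ i, (1 - 2 * η) * y i ≤ (g0 i : ℝ))
    (n1 : ((1 - η) ^ s - 2 * η) * (A.card * ∏ i, (g0 i : ℝ)) ≤ (1 + η) ^ s * ((∑ n ∈ A, ∏ i, (pin (n + a i) (g0 i) : ℝ)) * L ^ s))
    (n2 : (1 - η) ^ s * ((∑ n ∈ A, ∏ i, (pin (n + a i) (g1 i) : ℝ)) * L ^ s) ≤ ((1 + η) ^ s + 2 * η) * (A.card * ∏ i, (g1 i : ℝ))) :
    |(∑ n ∈ A, ∏ i, (pin (n + a i) (y i) : ℝ)) * L ^ s - A.card * ∏ i, (y i : ℝ)| ≤ ε * (A.card * ∏ i, (y i : ℝ)) := by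
  have hc0 : (0 : ℝ) ≤ A.card := Nat.cast_nonneg _
  have hLs : 0 ≤ L ^ s := by positivity
  have hp1 : (0 : ℝ) < (1 - η) ^ s := by
    have : 0 < 1 - η := by linarith
    positivity
  have hp2 : (0 : ℝ) < (1 + η) ^ s := by positivity
  have hp3 : (0 : ℝ) < (1 - 2 * η) ^ s := by
    have : 0 < 1 - 2 * η := by linarith
    positivity
  have hY0 : 0 ≤ ∏ i, (y i : ℝ) := prod_nonneg fun i _ => Nat.cast_nonneg _
  have m0 : ∑ n ∈ A, ∏ i, (pin (n + a i) (g0 i) : ℝ) ≤ ∑ n ∈ A, ∏ i, (pin (n + a i) (y i) : ℝ) :=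
    sum_le_sum fun n _ => prod_le_prod (fun i _ => Nat.cast_nonneg _) (fun i _ => by exact_mod_cast pin_mono (h0 i))
  have m1 : ∑ n ∈ A, ∏ i, (pin (n + a i) (y i) : ℝ) ≤ ∑ n ∈ A, ∏ i, (pin (n + a i) (g1 i) : ℝ) :=
    sum_le_sum fun n _ => prod_le_prod (fun i _ => Nat.cast_nonneg _) (fun i _ => by exact_mod_cast pin_mono (h1 i))
  have p1 : ∏ i, (g1 i : ℝ) ≤ (1 + η) ^ s * ∏ i, (y i : ℝ) := by
    calc ∏ i, (g1 i : ℝ) ≤ ∏ i, ((1 + η) * (y i : ℝ)) := prod_le_prod (fun i _ => Nat.cast_nonneg _) (fun i _ => h2 i)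
      _ = _ := by rw [prod_mul_distrib, prod_const, card_univ, Fintype.card_fin]
  have p0 : (1 - 2 * η) ^ s * ∏ i, (y i : ℝ) ≤ ∏ i, (g0 i : ℝ) := by
    calc (1 - 2 * η) ^ s * ∏ i, (y i : ℝ) = ∏ i, ((1 - 2 * η) * (y i : ℝ)) := by
          rw [prod_mul_distrib, prod_const, card_univ, Fintype.card_fin]
      _ ≤ _ := prod_le_prod (fun i _ => mul_nonneg (by linarith) (Nat.cast_nonneg _)) (fun i _ => h3 i)
  obtain ⟨Y, hY⟩ : ∃ Y, Y = ∏ i, (y i : ℝ) := ⟨_, rfl⟩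
  obtain ⟨F, hF⟩ : ∃ F, F = (∑ n ∈ A, ∏ i, (pin (n + a i) (y i) : ℝ)) * L ^ s := ⟨_, rfl⟩
  obtain ⟨c, hc⟩ : ∃ c : ℝ, c = A.card := ⟨_, rfl⟩
  rw [← hY] at hY0 p1 p0 ⊢
  rw [← hc] at hc0 n1 n2 ⊢
  have F0 := mul_le_mul_of_nonneg_right m0 hLs
  have F1 := mul_le_mul_of_nonneg_right m1 hLs
  rw [← hF] at F0 F1 ⊢
  have hcY : 0 ≤ c * Y := mul_nonneg hc0 hY0
  have u1 : (1 - η) ^ s * F ≤ (1 - η) ^ s * ((1 + ε) * (c * Y)) := by
    calc (1 - η) ^ s * F ≤ (1 - η) ^ s * ((∑ n ∈ A, ∏ i, (pin (n + a i) (g1 i) : ℝ)) * L ^ s) :=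
          mul_le_mul_of_nonneg_left F1 hp1.le
      _ ≤ ((1 + η) ^ s + 2 * η) * (c * ∏ i, (g1 i : ℝ)) := n2
      _ ≤ ((1 + η) ^ s + 2 * η) * (c * ((1 + η) ^ s * Y)) := by gcongr
      _ = ((1 + η) ^ s * ((1 + η) ^ s + 2 * η)) * (c * Y) := by ring
      _ ≤ ((1 + ε) * (1 - η) ^ s) * (c * Y) := mul_le_mul_of_nonneg_right e1 hcY
      _ = _ := by ring
  have hpos : 0 < (1 - η) ^ s - 2 * η := by
    have h5 : 0 < (1 - ε) * (1 + η) ^ s := mul_pos (by linarith) hp2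
    have h6 : 0 < ((1 - η) ^ s - 2 * η) * (1 - 2 * η) ^ s := by linarith
    exact (pos_iff_pos_of_mul_pos h6).2 hp3
  have u2 : (1 + η) ^ s * ((1 - ε) * (c * Y)) ≤ (1 + η) ^ s * F := by
    calc (1 + η) ^ s * ((1 - ε) * (c * Y)) = ((1 - ε) * (1 + η) ^ s) * (c * Y) := by ring
      _ ≤ (((1 - η) ^ s - 2 * η) * (1 - 2 * η) ^ s) * (c * Y) := mul_le_mul_of_nonneg_right e2 hcY
      _ = ((1 - η) ^ s - 2 * η) * (c * ((1 - 2 * η) ^ s * Y)) := by ring
      _ ≤ ((1 - η) ^ s - 2 * η) * (c * ∏ i, (g0 i : ℝ)) := by gcongr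
      _ ≤ (1 + η) ^ s * ((∑ n ∈ A, ∏ i, (pin (n + a i) (g0 i) : ℝ)) * L ^ s) := n1
      _ ≤ _ := mul_le_mul_of_nonneg_left F0 hp2.le
  have v1 := le_of_mul_le_mul_left u1 hp1
  have v2 := le_of_mul_le_mul_left u2 hp2
  rw [abs_le]
  constructor <;> linarith

/-- the choice of the parameter -/
lemma exists_eta (s : ℕ) (hs : 1 ≤ s) (ε : ℝ) (hε : 0 < ε) : ∃ η : ℝ, 0 < η ∧ η ≤ 1 / 8 ∧
    (1 + η) ^ s * ((1 + η) ^ s + 2 * η) ≤ (1 + ε) * (1 - η) ^ s ∧
    (1 - ε) * (1 + η) ^ s ≤ ((1 - η) ^ s - 2 * η) * (1 - 2 * η) ^ s ∧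
    ((1 / 4) ^ s - ε) * (4 / (1 - 2 * η) + η) ^ s ≤ 1 - ε - η - ε * (4 / (1 - 2 * η) + η) ^ (s - 1) := by
  have c1 : ContinuousAt (fun η : ℝ => (1 + ε) * (1 - η) ^ s - (1 + η) ^ s * ((1 + η) ^ s + 2 * η)) 0 := by fun_prop
  have c2 : ContinuousAt (fun η : ℝ => ((1 - η) ^ s - 2 * η) * (1 - 2 * η) ^ s - (1 - ε) * (1 + η) ^ s) 0 := by fun_prop
  have c3 : ContinuousAt (fun η : ℝ => 1 - ε - η - ε * (4 / (1 - 2 * η) + η) ^ (s - 1) - ((1 / 4) ^ s - ε) * (4 / (1 - 2 * η) + η) ^ s) 0 := by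
    fun_prop (disch := norm_num)
  have v1 := c1.tendsto.eventually (lt_mem_nhds (show (0 : ℝ) < _ by norm_num; exact hε))
  have v2 := c2.tendsto.eventually (lt_mem_nhds (show (0 : ℝ) < _ by norm_num; exact hε))
  have v3 := c3.tendsto.eventually (lt_mem_nhds (show (0 : ℝ) < _ by
    obtain ⟨t, rfl⟩ : ∃ t, s = t + 1 := ⟨s - 1, by omega⟩
    have h1 : (1 / 4 : ℝ) ^ (t + 1) * 4 ^ (t + 1) = 1 := by
      rw [← mul_pow]
      norm_num
    have h2 : (1 : ℝ) ≤ 4 ^ t := one_le_pow₀ (by norm_num)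
    have h3 : ε ≤ ε * 4 ^ t := by nlinarith
    simp only [mul_zero, sub_zero, div_one, add_zero, Nat.add_sub_cancel]
    rw [sub_mul, h1, pow_succ]
    nlinarith))
  have hw : ∀ᶠ η : ℝ in nhdsWithin 0 (Set.Ioi 0), 0 < η := eventually_nhdsWithin_of_forall fun x hx => hx
  have hv : ∀ᶠ η : ℝ in nhdsWithin 0 (Set.Ioi 0), η < 1 / 8 :=
    nhdsWithin_le_nhds (gt_mem_nhds (by norm_num))
  have w1 := nhdsWithin_le_nhds (s := Set.Ioi (0 : ℝ)) v1
  have w2 := nhdsWithin_le_nhds (s := Set.Ioi (0 : ℝ)) v2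
  have w3 := nhdsWithin_le_nhds (s := Set.Ioi (0 : ℝ)) v3
  obtain ⟨η, h1, h2, h3, h4, h5⟩ := (hw.and (hv.and (Filter.Eventually.and w1 (Filter.Eventually.and w2 w3)))).exists
  exact ⟨η, h1, h2.le, by linarith, by linarith, by linarith⟩

end Pool.Agent.D0H19.PG
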