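import Pool.Agent.W301.SS.Good
import Pool.Agent.D0H19.PG.Fix

set_option autoImplicit false

/-! Few intervals contain too many primes; a positive proportion of the points. -/

namespace Pool.Agent.D0H19.PG

open Finset Filter
open Pool.Agent.W301.SS

/-- few intervals contain too many primes -/
theorem few_large (B W : ℕ) (δ : ℝ) (hδ : 0 < δ) (hδ1 : δ ≤ 1 / 8) : ∀ᶠ N : ℕ in atTop, ∀ a : ℕ, a ≤ B * N →
    ∀ y : ℕ, Real.log N ^ (W + 20) ≤ y →
    (((Icc 1 N).filter (fun n => 4 / (1 - 2 * δ) + δ < Xn (Real.log N) (n + a) y)).card : ℝ) ≤ N / Real.log N ^ W := by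
  have hδ4 : 0 < (1 - δ) / 4 := by linarith
  filter_upwards [ev_L (4 / δ + 4 + 3 * 65536 * (B + 1) / δ ^ 2), ev_log 0 3 ((1 - δ) / 4) hδ4, ev_log W 3 (3 / 4) (by norm_num),
    ev_log (W + 2) (9 / δ ^ 2) δ hδ, eventually_ge_atTop 16] with N h1 h2 h3 h4 hN16 a ha y hy
  have hNr : (16 : ℝ) ≤ N := by exact_mod_cast hN16
  have hN0 : (0 : ℝ) < N := by linarith
  have hN1 : (1 : ℝ) ≤ N := by linarith
  obtain ⟨ℓ, hℓ⟩ : ∃ ℓ, ℓ = Real.log (N : ℝ) := ⟨_, rfl⟩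
  rw [← hℓ] at h1 h2 h3 h4 hy ⊢
  have hd1 : 0 < 4 / δ := by positivity
  have hd2 : 0 ≤ 3 * 65536 * ((B : ℝ) + 1) / δ ^ 2 := by positivity
  have hℓ4 : 4 ≤ ℓ := by linarith
  have hℓ1 : 1 ≤ ℓ := by linarith
  have hℓ0 : 0 < ℓ := by linarith
  have hyr : (1 : ℝ) ≤ y := (one_le_pow₀ hℓ1).trans hy
  have hyn : 1 ≤ y := by exact_mod_cast hyr
  have hy0 : (0 : ℝ) < y := by linarith
  rw [pow_zero, mul_one] at h2
  obtain ⟨D, hD⟩ : ∃ D : ℕ, D = ⌊(N : ℝ) ^ ((1 - δ) / 4)⌋₊ := ⟨_, rfl⟩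
  have hDle : (D : ℝ) ≤ (N : ℝ) ^ ((1 - δ) / 4) := by rw [hD]; exact Nat.floor_le (by positivity)
  have hD3 : 3 ≤ D := by rw [hD]; exact Nat.le_floor (by exact_mod_cast h2)
  have hDr : (3 : ℝ) ≤ D := by exact_mod_cast hD3
  have hDge : (N : ℝ) ^ ((1 - δ) / 4) ≤ 2 * D := by
    have := Nat.lt_floor_add_one ((N : ℝ) ^ ((1 - δ) / 4))
    rw [← hD] at this
    linarith
  have hlogD : (1 - 2 * δ) / 4 * ℓ ≤ Real.log D := by
    have a1 := Real.log_le_log (by positivity) hDge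
    rw [Real.log_rpow hN0, Real.log_mul (by norm_num) (by linarith), ← hℓ] at a1
    have a2 := Real.log_two_lt_d9
    have a3 : 1 ≤ δ * ℓ / 4 := by
      have : 4 / δ ≤ ℓ := by linarith
      rw [div_le_iff₀ hδ] at this
      linarith
    nlinarith
  have hlogD2 : 1 + 4 * Real.log D ≤ 2 * ℓ := by
    have a1 := Real.log_le_log (by linarith) hDle
    rw [Real.log_rpow hN0, ← hℓ] at a1
    nlinarith
  have hlogD0 : 0 ≤ 1 + 4 * Real.log D := by
    have := Real.log_nonneg (show (1 : ℝ) ≤ D by linarith)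
    linarith
  have hD4 : (D : ℝ) ^ 4 ≤ (N : ℝ) ^ (1 - δ) := by
    calc (D : ℝ) ^ 4 ≤ ((N : ℝ) ^ ((1 - δ) / 4)) ^ 4 := pow_le_pow_left₀ (by positivity) hDle 4
      _ = _ := by
        rw [← Real.rpow_natCast, ← Real.rpow_mul hN0.le]
        congr 1; push_cast; ring
  have hDN : (D : ℝ) ≤ (N : ℝ) ^ (1 / 4 : ℝ) :=
    hDle.trans (Real.rpow_le_rpow_of_exponent_le hN1 (by linarith))
  obtain ⟨l, l1, l2, l3, l4, l5⟩ := sel D hD3
  have hvar := variance l l2 D (by omega) l3 l5 ((B + 1) * N) y hyn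
  obtain ⟨S, hS⟩ : ∃ S : ℝ, S = 3 * (N : ℝ) ^ (1 - δ) + (((B : ℝ) + 1) * N / y) * (2 * ℓ) ^ 16 := ⟨_, rfl⟩
  have hSle : ∑ n ∈ Ioc 0 ((B + 1) * N), (VV l D y n - mv l D) ^ 2 ≤ S := by
    refine hvar.trans ?_
    rw [hS]
    push_cast
    have : (1 + 4 * Real.log D) ^ 16 ≤ (2 * ℓ) ^ 16 := pow_le_pow_left₀ hlogD0 hlogD2 16
    gcongr
  have e3 : mv l D * ℓ ≤ 4 / (1 - 2 * δ) := by
    have hpos : 0 < (1 - 2 * δ) / 4 * ℓ := by
      have : 0 < 1 - 2 * δ := by linarith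
      positivity
    calc mv l D * ℓ ≤ (1 / Real.log D) * ℓ := by gcongr
      _ ≤ (1 / ((1 - 2 * δ) / 4 * ℓ)) * ℓ := by gcongr
      _ = _ := by
        have : 1 - 2 * δ ≠ 0 := by linarith
        field_simp
  -- the bad points
  obtain ⟨E, hE⟩ : ∃ E, E = (Icc 1 N).filter (fun n => 4 / (1 - 2 * δ) + δ < Xn ℓ (n + a) y) := ⟨_, rfl⟩
  rw [← hE]
  have c1 : (E.card : ℝ) ≤ D + (ℓ / δ) ^ 2 * S := by
    have hpt : ∀ n ∈ E, (1 : ℝ) ≤ (if n < D then 1 else 0) + (ℓ / δ) ^ 2 * (VV l D y (n + a) - mv l D) ^ 2 := by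
      intro n hn
      rw [hE, mem_filter, mem_Icc] at hn
      by_cases hnD : n < D
      · rw [if_pos hnD]
        have : 0 ≤ (ℓ / δ) ^ 2 * (VV l D y (n + a) - mv l D) ^ 2 := by positivity
        linarith
      · rw [if_neg hnD, zero_add]
        have q1 := pn_le_VV l1 (D := D) (y := y) (n := n + a) (by omega) hyn (by omega)
        have q2 : Xn ℓ (n + a) y = ℓ * ((pn (n + a) y : ℝ) / y) := by
          unfold Xn
          rw [mul_div_assoc]
          rfl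
        have q3 : Xn ℓ (n + a) y ≤ ℓ * VV l D y (n + a) := by
          rw [q2]
          exact mul_le_mul_of_nonneg_left q1 hℓ0.le
        have q4 : δ ≤ ℓ * (VV l D y (n + a) - mv l D) := by
          have := hn.2
          linarith
        have q5 : 1 ≤ ℓ / δ * (VV l D y (n + a) - mv l D) := by
          rw [div_mul_eq_mul_div, le_div_iff₀ hδ, one_mul]
          exact q4
        rw [← mul_pow]
        exact one_le_pow₀ q5
    have h5 : (E.card : ℝ) = ∑ n ∈ E, (1 : ℝ) := by rw [sum_const, nsmul_eq_mul, mul_one]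
    rw [h5]
    refine (sum_le_sum hpt).trans ?_
    rw [sum_add_distrib, ← sum_filter, sum_const, nsmul_eq_mul, mul_one, ← mul_sum]
    apply add_le_add
    · have h6 : E.filter (fun n => n < D) ⊆ range D := by
        intro n hn
        rw [mem_filter] at hn
        exact mem_range.2 hn.2
      have h7 := card_le_card h6
      rw [card_range] at h7
      exact_mod_cast h7
    · apply mul_le_mul_of_nonneg_left _ (by positivity)
      refine le_trans ?_ hSle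
      have h6 : ∑ n ∈ E, (VV l D y (n + a) - mv l D) ^ 2 =
          ∑ n ∈ E.map (addRightEmbedding a), (VV l D y n - mv l D) ^ 2 := by
        rw [sum_map]; rfl
      rw [h6]
      apply sum_le_sum_of_subset_of_nonneg
      · intro n hn
        rw [Finset.mem_map] at hn
        obtain ⟨k, hk, rfl⟩ := hn
        rw [hE, mem_filter, mem_Icc] at hk
        rw [mem_Ioc]
        simp only [addRightEmbedding_apply]
        rw [add_mul, one_mul]
        omega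
      · intro _ _ _; exact sq_nonneg _
  refine c1.trans ?_
  have hLW : 0 < ℓ ^ W := by positivity
  rw [le_div_iff₀ hLW]
  have a1 : (D : ℝ) * ℓ ^ W ≤ N / 3 := by
    have : (D : ℝ) * ℓ ^ W ≤ (1 / 3) * ((N : ℝ) ^ (1 / 4 : ℝ) * (N : ℝ) ^ (3 / 4 : ℝ)) := by
      calc (D : ℝ) * ℓ ^ W ≤ (N : ℝ) ^ (1 / 4 : ℝ) * ℓ ^ W := by gcongr
        _ = (1 / 3) * ((N : ℝ) ^ (1 / 4 : ℝ) * (3 * ℓ ^ W)) := by ring
        _ ≤ _ := by gcongr
    rw [← Real.rpow_add hN0] at this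
    norm_num at this
    linarith
  have a2 : (ℓ / δ) ^ 2 * (3 * (N : ℝ) ^ (1 - δ)) * ℓ ^ W ≤ N / 3 := by
    have : (ℓ / δ) ^ 2 * (3 * (N : ℝ) ^ (1 - δ)) * ℓ ^ W ≤ (1 / 3) * ((N : ℝ) ^ δ * (N : ℝ) ^ (1 - δ)) := by
      calc (ℓ / δ) ^ 2 * (3 * (N : ℝ) ^ (1 - δ)) * ℓ ^ W = (1 / 3) * ((9 / δ ^ 2 * ℓ ^ (W + 2)) * (N : ℝ) ^ (1 - δ)) := by
            rw [pow_add]; field_simp; ring
        _ ≤ _ := by gcongr
    rw [← Real.rpow_add hN0] at this
    norm_num at this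
    linarith
  have a3 : (ℓ / δ) ^ 2 * ((((B : ℝ) + 1) * N / y) * (2 * ℓ) ^ 16) * ℓ ^ W ≤ N / 3 := by
    have e1 : (ℓ / δ) ^ 2 * ((((B : ℝ) + 1) * N / y) * (2 * ℓ) ^ 16) * ℓ ^ W =
        (N / 3) * (3 * 65536 * (B + 1) / δ ^ 2 * ℓ ^ (W + 18) / y) := by
      rw [pow_add]; field_simp; ring
    rw [e1]
    have e2 : 3 * 65536 * ((B : ℝ) + 1) / δ ^ 2 * ℓ ^ (W + 18) / y ≤ 1 := by
      rw [div_le_one hy0]
      refine le_trans ?_ hy
      have e4 : ℓ ^ (W + 20) = ℓ ^ 2 * ℓ ^ (W + 18) := by rw [← pow_add]; congr 1; omega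
      rw [e4]
      apply mul_le_mul_of_nonneg_right _ (by positivity)
      have e5 : 3 * 65536 * ((B : ℝ) + 1) / δ ^ 2 ≤ ℓ := by linarith
      nlinarith
    calc _ ≤ (N : ℝ) / 3 * 1 := mul_le_mul_of_nonneg_left e2 (by positivity)
      _ = _ := by ring
  calc ((D : ℝ) + (ℓ / δ) ^ 2 * S) * ℓ ^ W = (D : ℝ) * ℓ ^ W + (ℓ / δ) ^ 2 * (3 * (N : ℝ) ^ (1 - δ)) * ℓ ^ W +
        (ℓ / δ) ^ 2 * ((((B : ℝ) + 1) * N / y) * (2 * ℓ) ^ 16) * ℓ ^ W := by rw [hS]; ring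
    _ ≤ (N : ℝ) / 3 + (N : ℝ) / 3 + (N : ℝ) / 3 := by linarith
    _ = (N : ℝ) := by ring

/-- a positive proportion of the points -/
lemma proportion {s : ℕ} {ε η Λ L : ℝ} (hε : 0 < ε) (hL : 1 ≤ L) (hΛ : 1 ≤ Λ)
    (A : Finset ℕ) (X : Fin s → ℕ → ℝ) (hX0 : ∀ i n, 0 ≤ X i n) (hXL : ∀ i n, X i n ≤ L) (V : ℝ)
    (hV : ∀ i, ((A.filter (fun n => Λ < X i n)).card : ℝ) ≤ V) (hVs : s * V * L ^ s ≤ η * A.card)
    (hlow : (1 - ε) * A.card ≤ ∑ n ∈ A, ∏ i, X i n)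
    (hc : ((1 / 4) ^ s - ε) * Λ ^ s ≤ 1 - ε - η - ε * Λ ^ (s - 1)) :
    ((1 / 4) ^ s - ε) * A.card ≤ ((A.filter (fun n => ∀ i, ε ≤ X i n)).card : ℝ) := by
  classical
  have hΛ0 : 0 < Λ := by linarith
  have hΛs : 0 < Λ ^ s := by positivity
  have hc0 : (0 : ℝ) ≤ A.card := Nat.cast_nonneg _
  have hpt : ∀ n ∈ A, ∏ i, X i n ≤ (if ∀ i, ε ≤ X i n then Λ ^ s else 0) + ε * Λ ^ (s - 1) +
      ∑ i, (if Λ < X i n then L ^ s else 0) := by
    intro n _
    have t1 : 0 ≤ (if ∀ i, ε ≤ X i n then Λ ^ s else 0) := by split_ifs <;> positivity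
    have t2 : 0 ≤ ε * Λ ^ (s - 1) := by positivity
    have t3 : ∀ i ∈ (univ : Finset (Fin s)), 0 ≤ (if Λ < X i n then L ^ s else 0) := fun i _ => by
      split_ifs <;> positivity
    have t3' := sum_nonneg t3
    by_cases h1 : ∃ i, Λ < X i n
    · obtain ⟨i, hi⟩ := h1
      have h2 := single_le_sum t3 (mem_univ i)
      rw [if_pos hi] at h2
      have h3 : ∏ i, X i n ≤ L ^ s := by
        calc ∏ i, X i n ≤ ∏ _i : Fin s, L := prod_le_prod (fun i _ => hX0 i n) (fun i _ => hXL i n)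
          _ = L ^ s := by rw [prod_const, card_univ, Fintype.card_fin]
      linarith
    · push Not at h1
      by_cases h2 : ∀ i, ε ≤ X i n
      · rw [if_pos h2]
        have h3 : ∏ i, X i n ≤ Λ ^ s := by
          calc ∏ i, X i n ≤ ∏ _i : Fin s, Λ := prod_le_prod (fun i _ => hX0 i n) (fun i _ => h1 i)
            _ = Λ ^ s := by rw [prod_const, card_univ, Fintype.card_fin]
        linarith
      · push Not at h2
        obtain ⟨i, hi⟩ := h2
        have h3 : ∏ i, X i n ≤ ε * Λ ^ (s - 1) := by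
          rw [← mul_prod_erase univ (fun i => X i n) (mem_univ i)]
          apply mul_le_mul hi.le _ (prod_nonneg fun j _ => hX0 j n) hε.le
          calc ∏ j ∈ univ.erase i, X j n ≤ ∏ _j ∈ univ.erase i, Λ := prod_le_prod (fun j _ => hX0 j n) (fun j _ => h1 j)
            _ = Λ ^ (s - 1) := by rw [prod_const, card_erase_of_mem (mem_univ i), card_univ, Fintype.card_fin]
        linarith
  have hsum := hlow.trans (sum_le_sum hpt)
  rw [sum_add_distrib, sum_add_distrib, ← sum_filter, sum_const, sum_const, nsmul_eq_mul, nsmul_eq_mul, sum_comm] at hsum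
  have h4 : ∀ i ∈ (univ : Finset (Fin s)), ∑ n ∈ A, (if Λ < X i n then L ^ s else 0) ≤ V * L ^ s := by
    intro i _
    rw [← sum_filter, sum_const, nsmul_eq_mul]
    exact mul_le_mul_of_nonneg_right (hV i) (by positivity)
  have h5 := sum_le_sum h4
  rw [sum_const, card_univ, Fintype.card_fin, nsmul_eq_mul] at h5
  have h6 : (1 - ε - η - ε * Λ ^ (s - 1)) * A.card ≤ ((A.filter (fun n => ∀ i, ε ≤ X i n)).card : ℝ) * Λ ^ s := by
    nlinarith
  have h7 : (((1 / 4) ^ s - ε) * A.card) * Λ ^ s ≤ ((A.filter (fun n => ∀ i, ε ≤ X i n)).card : ℝ) * Λ ^ s := by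
    refine le_trans ?_ h6
    have := mul_le_mul_of_nonneg_right hc hc0
    linarith
  exact le_of_mul_le_mul_right h7 hΛs

end Pool.Agent.D0H19.PG
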