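import Pool.Agent.H373R2.T7.Fund
import Pool.Agent.H373R2.T7.Tuple
import Pool.Agent.H373R2.T7.LamZ2
import Pool.Agent.D0H19.PG.Avg

set_option autoImplicit false

/-! The sieve model in short intervals. -/

namespace Pool.Agent.D0H19.PG

open Finset
open Pool.Agent.H373R2.T7

lemma nuB_div (m p : ℕ) (hp : 0 < p) : nuB (fun p h => p ∣ h + m) p = 1 := by
  classical
  unfold nuB
  rw [card_eq_one]
  refine ⟨(p - m % p) % p, ?_⟩
  have h0 : p ∣ (p - m % p) % p + m := by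
    apply Nat.dvd_of_mod_eq_zero
    rw [Nat.add_mod, Nat.mod_mod, ← Nat.add_mod]
    have h1 : (p - m % p + m) % p = (p - m % p + m % p) % p := by
      rw [Nat.add_mod, Nat.add_mod (p - m % p) (m % p), Nat.mod_mod]
    rw [h1]
    have h2 := (Nat.mod_lt m hp).le
    rw [Nat.sub_add_cancel h2, Nat.mod_self]
  ext r
  simp only [mem_filter, mem_range, mem_singleton]
  constructor
  · rintro ⟨h1, h2⟩
    have h3 : r + m ≡ (p - m % p) % p + m [MOD p] := by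
      have e1 := (Nat.modEq_zero_iff_dvd.2 h2)
      have e2 := (Nat.modEq_zero_iff_dvd.2 h0)
      exact e1.trans e2.symm
    have h4 : r ≡ (p - m % p) % p [MOD p] := Nat.ModEq.add_right_cancel' m h3
    exact h4.eq_of_lt_of_lt h1 (Nat.mod_lt _ hp)
  · rintro rfl
    exact ⟨Nat.mod_lt _ hp, h0⟩

lemma div_per (m : ℕ) : PerB (fun p h => p ∣ h + m) 1 := by
  refine ⟨fun p n => ?_, fun p hp => (nuB_div m p hp.pos).le⟩
  have h1 : n + m ≡ n % p + m [MOD p] := (Nat.mod_modEq n p).symm.add_right m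
  exact h1.dvd_iff (dvd_refl p)

open Classical in
lemma avI_lamz (z y a n : ℕ) (Q : ℕ → ℕ → Prop) (hQ : ∀ p h, Q p h ↔ p ∣ h + (n + a)) : avI (lamzI z) y a n =
    (Vz z)⁻¹ * ((((Icc 1 y).filter (fun h : ℕ => ∀ p ∈ pz z, ¬ Q p h)).card : ℕ) : ℝ) / y := by
  unfold avI
  congr 1
  rw [card_filter, Nat.cast_sum, mul_sum]
  have e1 : Ioc 0 y = Icc 1 y := by
    ext h
    rw [mem_Ioc, mem_Icc]
    omega
  rw [e1]
  apply sum_congr rfl
  intro h hh
  rw [mem_Icc] at hh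
  unfold lamzI lamz
  have e2 : ((((n + h : ℕ) : ℤ) + (a : ℤ))).toNat = h + (n + a) := by omega
  rw [if_pos (by omega), e2]
  by_cases h5 : ∀ p ∈ pz z, ¬ p ∣ h + (n + a)
  · rw [if_pos h5, if_pos (fun p hp => by rw [hQ]; exact h5 p hp), Nat.cast_one, mul_one]
  · rw [if_neg h5, if_neg (fun h6 => h5 fun p hp => by have := h6 p hp; rwa [hQ] at this), Nat.cast_zero, mul_zero]

open Classical in
theorem mod_avg (E : ℕ) (η : ℝ) (hη : 0 < η) : ∃ K N₀ : ℕ, ∀ N : ℕ, N₀ ≤ N → ∀ z : ℕ, Real.log N ≤ z →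
    (z : ℝ) ≤ Real.log N ^ E → ∀ y : ℕ, Real.log N ^ K ≤ y → ∀ a n : ℕ, |avI (lamzI z) y a n - 1| ≤ η := by
  obtain ⟨K1, x0, hK1, h⟩ := sys_fund 1 le_rfl (η / 2) (by positivity)
  obtain ⟨N1, h1⟩ := Vz_inv_small E
  obtain ⟨N2, h2⟩ := ev_L' (x0 + 2 / η + 2)
  refine ⟨E * K1 + 4, N1 + N2, fun N hN z hz1 hz2 y hy a n => ?_⟩
  have hL := h2 N (by omega)
  have hd : 0 < 2 / η := by positivity
  have hx0 : (0 : ℝ) ≤ x0 := Nat.cast_nonneg _
  have hV1 := h1 N (by omega)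
  obtain ⟨L, hLd⟩ : ∃ L, L = Real.log (N : ℝ) := ⟨_, rfl⟩
  rw [← hLd] at hL hV1 hz1 hz2 hy
  have hL2 : 2 ≤ L := by linarith
  have hL1 : 1 ≤ L := by linarith
  have hL0 : 0 < L := by linarith
  have hzx : x0 ≤ z := by
    have : (x0 : ℝ) ≤ z := by linarith
    exact_mod_cast this
  have hz0 : 1 ≤ z := by
    have : (1 : ℝ) ≤ z := by linarith
    exact_mod_cast this
  have hzy : z ^ K1 ≤ y := by
    have : ((z ^ K1 : ℕ) : ℝ) ≤ y := by
      push_cast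
      calc (z : ℝ) ^ K1 ≤ (L ^ E) ^ K1 := pow_le_pow_left₀ (Nat.cast_nonneg _) hz2 _
        _ = L ^ (E * K1) := (pow_mul _ _ _).symm
        _ ≤ L ^ (E * K1 + 4) := pow_le_pow_right₀ hL1 (by omega)
        _ ≤ y := hy
    exact_mod_cast this
  have hV0 := Vz_pos z
  have hVi := hV1 z hz0 hz2
  have hy0 : (0 : ℝ) < y := lt_of_lt_of_le (by positivity) hy
  obtain ⟨Q, hQ⟩ : ∃ Q : ℕ → ℕ → Prop, Q = fun p h => p ∣ h + (n + a) := ⟨_, rfl⟩
  have key := h y z hzx hzy Q (by rw [hQ]; exact div_per _) y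
  have eprod : ∏ p ∈ pz z, (1 - (nuB Q p : ℝ) / p) = Vz z := by
    unfold Vz
    apply prod_congr rfl
    intro p hp
    rw [hQ, nuB_div _ p (mem_pz.1 hp).2.pos, Nat.cast_one]
  rw [eprod] at key
  rw [avI_lamz z y a n Q (fun p h => by rw [hQ])]
  obtain ⟨c, hc⟩ : ∃ c : ℝ, c = ((((Icc 1 y).filter (fun h : ℕ => ∀ p ∈ pz z, ¬ Q p h)).card : ℕ) : ℝ) := ⟨_, rfl⟩
  rw [← hc] at key ⊢
  have e1 : (Vz z)⁻¹ * c / y - 1 = (Vz z)⁻¹ / y * (c - y * Vz z) := by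
    field_simp
  rw [e1, abs_mul, abs_of_pos (by positivity)]
  have hs0 : 0 < √(y : ℝ) := Real.sqrt_pos.2 hy0
  have hsL : L ^ 2 ≤ √(y : ℝ) := by
    apply Real.le_sqrt_of_sq_le
    calc (L ^ 2) ^ 2 = L ^ 4 := by ring
      _ ≤ L ^ (E * K1 + 4) := pow_le_pow_right₀ hL1 (by omega)
      _ ≤ y := hy
  calc (Vz z)⁻¹ / y * |c - y * Vz z| ≤ (Vz z)⁻¹ / y * (η / 2 * (y * Vz z) + √(y : ℝ)) :=
        mul_le_mul_of_nonneg_left key (by positivity)
    _ = η / 2 + (Vz z)⁻¹ / √(y : ℝ) := by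
        have : (Vz z)⁻¹ / y * (η / 2 * (y * Vz z) + √(y : ℝ)) = η / 2 + (Vz z)⁻¹ * (√(y : ℝ) / y) := by
          field_simp
        rw [this, Real.sqrt_div_self, ← div_eq_mul_inv]
    _ ≤ η / 2 + η / 2 := by
        have h5 : (Vz z)⁻¹ / √(y : ℝ) ≤ L / L ^ 2 := div_le_div₀ hL0.le hVi (by positivity) hsL
        have h6 : L / L ^ 2 = 1 / L := by field_simp
        have h7 : 1 / L ≤ η / 2 := by
          rw [div_le_iff₀ hL0]
          have : 2 / η ≤ L := by linarith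
          rw [div_le_iff₀ hη] at this
          linarith
        linarith
    _ = η := by ring

end Pool.Agent.D0H19.PG
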