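import Pool.Agent.TH890.AutTup1
import Pool.Agent.D0H19.PG.Mod
import Pool.Agent.D0H19.PG.Few

set_option autoImplicit false

/-! Primes in several short intervals: the core. -/

namespace Pool.Agent.D0H19.PG

open Finset
open Pool.Agent.H373R2.T7
open Pool.Agent.W93.TD
open Pool.Agent.W301.SS (gr gr_mem)

variable {s : ℕ}

/-- the two conclusions for one vector of shifts -/
def Gd (ε : ℝ) (K N : ℕ) (A : Finset ℕ) (a : Fin s → ℕ) : Prop :=
  ∀ y : Fin s → ℕ, (∀ i, Real.log N ^ K ≤ y i ∧ 4 * y i ≤ N) →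
    |(∑ n ∈ A, ∏ i, (pin (n + a i) (y i) : ℝ)) * Real.log N ^ s - A.card * ∏ i, (y i : ℝ)| ≤ ε * (A.card * ∏ i, (y i : ℝ)) ∧
    ((1 / 4) ^ s - ε) * A.card ≤
      ((A.filter (fun n => ∀ i, ε * (y i : ℝ) ≤ (pin (n + a i) (y i) : ℝ) * Real.log N)).card : ℝ)

/-- the test for one vector of lengths -/
def Tst (η : ℝ) (z : ℕ) (A : Finset ℕ) (a y : Fin s → ℕ) : Prop :=
  |∑ n ∈ A, (∏ i, avI lamI (y i) (a i) n - ∏ i, avI (lamzI z) (y i) (a i) n)| ≤ η * A.card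

/-- the number of the exponents -/
noncomputable def JJ (η : ℝ) (N : ℕ) : ℕ := ⌊Real.log N / Real.log (1 + η)⌋₊ + 2

lemma JJ_le {η : ℝ} (hη : 0 < η) : ∃ N₀ : ℕ, ∀ N, N₀ ≤ N → (JJ η N : ℝ) ≤ Real.log N ^ 2 := by
  have hlr : 0 < Real.log (1 + η) := Real.log_pos (by linarith)
  obtain ⟨n1, h1⟩ := ev_L' (1 / Real.log (1 + η) + 4)
  refine ⟨n1, fun N hN => ?_⟩
  have hL := h1 N hN
  obtain ⟨ℓ, hℓ⟩ : ∃ ℓ, ℓ = Real.log (N : ℝ) := ⟨_, rfl⟩
  unfold JJ
  rw [← hℓ] at hL ⊢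
  have hd : 0 < 1 / Real.log (1 + η) := by positivity
  have hℓ0 : 0 < ℓ := by linarith
  have h2 := Nat.floor_le (show 0 ≤ ℓ / Real.log (1 + η) by positivity)
  push_cast
  have h3 : ℓ / Real.log (1 + η) ≤ ℓ * (ℓ - 4) := by
    rw [div_eq_mul_one_div]
    exact mul_le_mul_of_nonneg_left (by linarith) hℓ0.le
  nlinarith

/-- from the tests on the grid to all the lengths -/
theorem det_all (hs : 1 ≤ s) (B C E : ℕ) (ε : ℝ) (hε : 0 < ε) (hε1 : ε < 1) : ∃ (η : ℝ) (K N₀ : ℕ), 0 < η ∧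
    ∀ N, N₀ ≤ N → ∀ z : ℕ, Real.log N ≤ z → (z : ℝ) ≤ Real.log N ^ E → ∀ A : Finset ℕ, A ⊆ Icc 1 (N / 2) →
    (N : ℝ) ≤ A.card * Real.log N ^ C → ∀ a : Fin s → ℕ, (∀ i, a i ≤ B * N) →
    (∀ j : Fin s → ℕ, (∀ i, j i < JJ η N) → (∀ i, 2 * gr η (j i) ≤ N) → Tst η z A a (fun i => gr η (j i))) → Gd ε K N A a := by
  classical
  obtain ⟨η, hη, hη1, e1, e2, e3⟩ := exists_eta s hs ε hε
  obtain ⟨K1, n1, h1⟩ := mod_avg E η hη
  obtain ⟨K2, hK2⟩ : ∃ K2, K2 = K1 + (C + s + 1 + 20) := ⟨_, rfl⟩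
  have hlr : 0 < Real.log (1 + η) := Real.log_pos (by linarith)
  obtain ⟨n2, h2⟩ := Filter.eventually_atTop.1 (few_large B (C + s + 1) η hη hη1)
  obtain ⟨n3, h3⟩ := ev_L' (1 / η + 16 + Real.log ((B + 2 : ℕ) : ℝ) / η + s / η)
  obtain ⟨n4, h4⟩ := Filter.eventually_atTop.1 (Pool.Agent.W301.SS.ev_log (C + s) (2 / η) η hη)
  obtain ⟨n5, h5⟩ := Filter.eventually_atTop.1 (Pool.Agent.W301.SS.ev_log (C + s + 1) (2 ^ s * (s * (4 * √((B + 2 : ℕ) : ℝ))) / η) (1 / 2) (by norm_num))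
  refine ⟨η, K2 + 1, n1 + n2 + n3 + n4 + n5 + 16, hη, fun N hN z hz1 hz2 A hA hAN a ha htest => ?_⟩
  have g2 := h2 N (by omega)
  have g1 := h1 N (by omega) z hz1 hz2
  have g3 := h3 N (by omega)
  have g4 := h4 N (by omega)
  have g5 := h5 N (by omega)
  have hN16 : 16 ≤ N := by omega
  have hNr : (16 : ℝ) ≤ N := by exact_mod_cast hN16
  have hN0 : (0 : ℝ) < N := by linarith
  have hN1 : (1 : ℝ) ≤ N := by linarith
  obtain ⟨L, hL⟩ : ∃ L, L = Real.log (N : ℝ) := ⟨_, rfl⟩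
  have hB0 : 0 ≤ Real.log ((B + 2 : ℕ) : ℝ) := Real.log_natCast_nonneg _
  have hd1 : 0 < 1 / η := by positivity
  have hd2 : 0 ≤ Real.log ((B + 2 : ℕ) : ℝ) / η := by positivity
  have hd3 : 0 ≤ (s : ℝ) / η := by positivity
  have hAc0 : (0 : ℝ) ≤ A.card := Nat.cast_nonneg _
  unfold Gd
  rw [← hL] at g1 g2 g3 g4 g5 hAN hz1 hz2 ⊢
  have hL16 : 16 ≤ L := by linarith
  have hL1 : 1 ≤ L := by linarith
  have hL0 : 0 < L := by linarith
  have hLC : 0 < L ^ C := by positivity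
  -- the sizes
  obtain ⟨X, hX⟩ : ∃ X, X = (B + 2) * N := ⟨_, rfl⟩
  have hX1 : 1 ≤ X := by
    rw [hX]
    exact Nat.mul_pos (by omega) (by omega)
  have hlogX : Real.log X ≤ (1 + η) * L := by
    rw [hX, Nat.cast_mul, Real.log_mul (by positivity) hN0.ne', ← hL]
    have : Real.log ((B + 2 : ℕ) : ℝ) ≤ η * L := by
      have h6 : Real.log ((B + 2 : ℕ) : ℝ) / η ≤ L := by linarith
      rw [div_le_iff₀ hη] at h6
      linarith
    linarith
  obtain ⟨n0, hn0⟩ : ∃ n0 : ℕ, n0 = ⌈(N : ℝ) ^ (1 - η)⌉₊ := ⟨_, rfl⟩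
  have hNη1 : 1 ≤ (N : ℝ) ^ (1 - η) := Real.one_le_rpow hN1 (by linarith)
  have hn0' : (n0 : ℝ) ≤ 2 * (N : ℝ) ^ (1 - η) := by
    have : (n0 : ℝ) < (N : ℝ) ^ (1 - η) + 1 := by rw [hn0]; exact Nat.ceil_lt_add_one (by positivity)
    linarith
  have hlow : ∀ n, n0 ≤ n → (1 - η) * L ≤ Real.log (n : ℝ) := by
    intro n hn
    have h6 : (N : ℝ) ^ (1 - η) ≤ n := by
      refine (Nat.le_ceil _).trans ?_
      rw [← hn0]
      exact_mod_cast hn
    have h7 := Real.log_le_log (by positivity) h6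
    rw [Real.log_rpow hN0, ← hL] at h7
    exact h7
  have hn0c : n0 * L ^ s ≤ η * A.card := by
    have h6 : n0 * L ^ s * L ^ C ≤ η * A.card * L ^ C := by
      calc n0 * L ^ s * L ^ C ≤ (2 * (N : ℝ) ^ (1 - η)) * L ^ s * L ^ C := by gcongr
        _ = η * ((N : ℝ) ^ (1 - η) * (2 / η * L ^ (C + s))) := by
          rw [pow_add]; field_simp
        _ ≤ η * ((N : ℝ) ^ (1 - η) * (N : ℝ) ^ η) := by gcongr
        _ = η * N := by rw [← Real.rpow_add hN0]; norm_num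
        _ ≤ η * (A.card * L ^ C) := by gcongr
        _ = _ := by ring
    exact le_of_mul_le_mul_right h6 hLC
  have hpp : (2 * L) ^ s * (s * (2 * √(X : ℝ) * Real.log X)) ≤ η * A.card := by
    have hsN : √(N : ℝ) = (N : ℝ) ^ (1 / 2 : ℝ) := Real.sqrt_eq_rpow _
    have h6 : (2 * L) ^ s * (s * (2 * √(X : ℝ) * Real.log X)) * L ^ C ≤ η * A.card * L ^ C := by
      calc (2 * L) ^ s * (s * (2 * √(X : ℝ) * Real.log X)) * L ^ C ≤ (2 * L) ^ s * (s * (2 * √(X : ℝ) * (2 * L))) * L ^ C := by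
            have : Real.log X ≤ 2 * L := hlogX.trans (by nlinarith)
            gcongr
        _ = η * ((2 ^ s * (s * (4 * √((B + 2 : ℕ) : ℝ))) / η * L ^ (C + s + 1)) * √(N : ℝ)) := by
          rw [hX, Nat.cast_mul, Real.sqrt_mul (Nat.cast_nonneg _), mul_pow, pow_succ, pow_add]
          field_simp
          ring
        _ ≤ η * ((N : ℝ) ^ (1 / 2 : ℝ) * √(N : ℝ)) := by gcongr
        _ = η * N := by rw [← hsN, Real.mul_self_sqrt hN0.le]
        _ ≤ η * (A.card * L ^ C) := by gcongr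
        _ = _ := by ring
    exact le_of_mul_le_mul_right h6 hLC
  -- one vector of the grid
  have hgrid : ∀ j : Fin s → ℕ, (∀ i, j i < JJ η N) → (∀ i, 2 * gr η (j i) ≤ N) → (∀ i, L ^ K2 ≤ (gr η (j i) : ℝ)) →
      (1 - η) ^ s * ((∑ n ∈ A, ∏ i, (pin (n + a i) (gr η (j i)) : ℝ)) * L ^ s) ≤
        ((1 + η) ^ s + 2 * η) * (A.card * ∏ i, (gr η (j i) : ℝ)) ∧
      ((1 - η) ^ s - 2 * η) * (A.card * ∏ i, (gr η (j i) : ℝ)) ≤
        (1 + η) ^ s * ((∑ n ∈ A, ∏ i, (pin (n + a i) (gr η (j i)) : ℝ)) * L ^ s) := by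
    intro j hj1 hj2 hj3
    have hy1 : ∀ i, 1 ≤ gr η (j i) := fun i => by
      have h6 : (1 : ℝ) ≤ gr η (j i) := (one_le_pow₀ hL1).trans (hj3 i)
      exact_mod_cast h6
    have h6 := one_y hη hη1 hA a (fun i => gr η (j i)) (X := X) (z := z) (L := L) (fun i => by
        have h7 := ha i
        have h8 := hj2 i
        rw [hX, add_mul]
        show N / 2 + gr η (j i) + a i ≤ _
        omega) hX1 hlogX hL1 hy1 (fun i n _ => g1 (gr η (j i)) ((pow_le_pow_right₀ hL1 (by omega)).trans (hj3 i)) (a i) n)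
        (htest j hj1 hj2) hpp n0 hlow hn0c
    have hprod : ∑ n ∈ A, ∏ i, (pin (n + a i) (gr η (j i)) : ℝ) = (∑ n ∈ A, ∏ i, Xn L (n + a i) (gr η (j i))) *
        (∏ i, (gr η (j i) : ℝ)) / L ^ s := by
      rw [eq_div_iff (by positivity), sum_mul, sum_mul]
      exact sum_congr rfl fun n _ => (prod_Xn L a (fun i => gr η (j i)) hy1 n).symm
    have hprod2 : (∑ n ∈ A, ∏ i, (pin (n + a i) (gr η (j i)) : ℝ)) * L ^ s = (∑ n ∈ A, ∏ i, Xn L (n + a i) (gr η (j i))) *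
        (∏ i, (gr η (j i) : ℝ)) := by
      rw [hprod]
      field_simp
    have hP0 : 0 ≤ ∏ i, (gr η (j i) : ℝ) := prod_nonneg fun i _ => Nat.cast_nonneg _
    rw [hprod2]
    have h7 := mul_le_mul_of_nonneg_right h6.1 hP0
    have h8 := mul_le_mul_of_nonneg_right h6.2 hP0
    constructor <;> linarith
  intro y hy
  have hyℓ : ∀ i, L ≤ (y i : ℝ) := by
    intro i
    refine le_trans ?_ (hy i).1
    calc L = L ^ 1 := (pow_one _).symm
      _ ≤ L ^ (K2 + 1) := pow_le_pow_right₀ hL1 (by omega)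
  have hy1 : ∀ i, 1 ≤ y i := fun i => by
    have : (1 : ℝ) ≤ y i := by linarith [hyℓ i]
    exact_mod_cast this
  choose j q1 q2 q3 q4 q5 using fun i => gr_mem hη (by linarith) (y i) (hy1 i) (by linarith [hyℓ i])
  have hyK : ∀ i, L ^ K2 ≤ (gr η (j i) : ℝ) := by
    intro i
    refine le_trans ?_ (q5 i)
    have k1 : L ^ K2 * L ≤ y i := by rw [← pow_succ]; exact (hy i).1
    have k2 : 0 ≤ L ^ K2 := by positivity
    have k3 : L ^ K2 * 2 ≤ y i := by nlinarith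
    have k4 : (1 / 2) * (y i : ℝ) ≤ (1 - 2 * η) * y i := by nlinarith [hyℓ i]
    linarith
  have hgg : ∀ i, (gr η (j i) : ℝ) ≤ gr η (j i + 1) := fun i => by exact_mod_cast (q2 i).trans (q3 i)
  have hjJ : ∀ i, j i + 1 < JJ η N := by
    intro i
    have k1 : (j i : ℝ) ≤ L / Real.log (1 + η) := by
      rw [le_div_iff₀ hlr, ← Real.log_pow, hL]
      apply Real.log_le_log (by positivity)
      refine (q1 i).trans ?_
      have : y i ≤ N := by have := (hy i).2; omega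
      exact_mod_cast this
    have k2 : j i ≤ ⌊L / Real.log (1 + η)⌋₊ := Nat.le_floor k1
    unfold JJ
    rw [← hL]
    omega
  have hg0 : ∀ i, 2 * gr η (j i) ≤ N := fun i => by have := (hy i).2; have := q2 i; omega
  have hg1 : ∀ i, 2 * gr η (j i + 1) ≤ N := fun i => by
    have k1 : (4 : ℝ) * y i ≤ N := by exact_mod_cast (hy i).2
    have k2 : (2 : ℝ) * gr η (j i + 1) ≤ N := by
      have := q4 i
      nlinarith [hyℓ i]
    exact_mod_cast k2
  have r0 := hgrid j (fun i => by have := hjJ i; omega) hg0 hyK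
  have r1 := hgrid (fun i => j i + 1) hjJ hg1 (fun i => (hyK i).trans (hgg i))
  have main := interp hη hη1 hε1 hL0.le e1 e2 A a y (fun i => gr η (j i)) (fun i => gr η (j i + 1)) q2 q3 q4 q5 r0.2 r1.1
  refine ⟨main, ?_⟩
  -- the proportion
  have hΛ : (1 : ℝ) ≤ 4 / (1 - 2 * η) + η := by
    have : (1 : ℝ) ≤ 4 / (1 - 2 * η) := by
      rw [le_div_iff₀ (by linarith)]
      linarith
    linarith
  have hlow2 : (1 - ε) * A.card ≤ ∑ n ∈ A, ∏ i, Xn L (n + a i) (y i) := by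
    have k0 : 0 < ∏ i, (y i : ℝ) := prod_pos fun i _ => by
      have := hy1 i
      exact_mod_cast this
    have k1 := (abs_le.1 main).1
    have k2 : (∑ n ∈ A, ∏ i, (pin (n + a i) (y i) : ℝ)) * L ^ s = (∑ n ∈ A, ∏ i, Xn L (n + a i) (y i)) * (∏ i, (y i : ℝ)) := by
      rw [sum_mul, sum_mul]
      exact sum_congr rfl fun n _ => (prod_Xn L a y hy1 n).symm
    rw [k2] at k1
    have k3 : ((1 - ε) * A.card) * (∏ i, (y i : ℝ)) ≤ (∑ n ∈ A, ∏ i, Xn L (n + a i) (y i)) * (∏ i, (y i : ℝ)) := by linarith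
    exact le_of_mul_le_mul_right k3 k0
  have hV : ∀ i, ((A.filter (fun n => 4 / (1 - 2 * η) + η < Xn L (n + a i) (y i))).card : ℝ) ≤ N / L ^ (C + s + 1) := by
    intro i
    refine le_trans ?_ (g2 (a i) (ha i) (y i) ((pow_le_pow_right₀ hL1 (by omega)).trans (hy i).1))
    have : A.filter (fun n => 4 / (1 - 2 * η) + η < Xn L (n + a i) (y i)) ⊆
        (Icc 1 N).filter (fun n => 4 / (1 - 2 * η) + η < Xn L (n + a i) (y i)) := by
      apply filter_subset_filter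
      refine hA.trans (Icc_subset_Icc le_rfl (by omega))
    exact_mod_cast card_le_card this
  have hVs : s * (N / L ^ (C + s + 1)) * L ^ s ≤ η * A.card := by
    have k1 : s * (N / L ^ (C + s + 1)) * L ^ s = (s / L) * (N / L ^ C) := by
      rw [pow_succ, pow_add]
      field_simp
    rw [k1]
    have k2 : (s : ℝ) / L ≤ η := by
      rw [div_le_iff₀ hL0]
      have : (s : ℝ) / η ≤ L := by linarith
      rw [div_le_iff₀ hη] at this
      linarith
    have k3 : (N : ℝ) / L ^ C ≤ A.card := by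
      rw [div_le_iff₀ hLC]
      exact hAN
    gcongr
  have k := proportion hε hL1 hΛ A (fun i n => Xn L (n + a i) (y i)) (fun i n => Xn_nonneg hL0.le _ _)
    (fun i n => Xn_le hL0.le _ _) _ hV hVs hlow2 e3
  refine k.trans ?_
  have : A.filter (fun n => ∀ i, ε ≤ Xn L (n + a i) (y i)) ⊆
      A.filter (fun n => ∀ i, ε * (y i : ℝ) ≤ (pin (n + a i) (y i) : ℝ) * L) := by
    intro n hn
    rw [mem_filter] at hn ⊢
    refine ⟨hn.1, fun i => ?_⟩
    have k1 := hn.2 i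
    unfold Xn at k1
    have k0 : (0 : ℝ) < y i := by exact_mod_cast hy1 i
    rw [le_div_iff₀ k0] at k1
    linarith
  exact_mod_cast card_le_card this

end Pool.Agent.D0H19.PG
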