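import Pool.Agent.D0H19.PG.Core

set_option autoImplicit false

/-! Primes in several short intervals: random shifts. -/

namespace Pool.Agent.D0H19.PG

open Finset
open Pool.Agent.H373R2.T7
open Pool.Agent.W93.TD
open Pool.Agent.W301.SS (gr gr_mem)

variable {s : ℕ}

open Classical in
/-- the weight of the vectors which fail the test for one vector of lengths -/
lemma tst_prob (N z B : ℕ) (η L : ℝ) (hη : 0 < η) (A : Finset ℕ) (hA : A ⊆ Icc 1 (N / 2)) (hA0 : 0 < A.card)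
    (κκ c : Fin s → ℕ) (Ω : Fin s → Finset ℕ) (p : Fin s → ℕ → ℝ) (hp0 : ∀ i, ∀ v ∈ Ω i, 0 ≤ p i v) (hp1 : ∀ i, ∑ v ∈ Ω i, p i v = 1)
    (hB : ∀ i, ∀ v ∈ Ω i, c i + κκ i * v ≤ B * N) (hL : 1 ≤ L) (hlog : Real.log (((B + 2) * N : ℕ) : ℝ) ≤ 2 * L)
    (hV : (Vz z)⁻¹ ≤ L) (δ : ℝ) (hδ : 0 ≤ δ)
    (hone : ∀ i, ∀ Kc : ℝ, 0 < Kc → ∀ G : ℕ → ℝ, (∀ n ∈ Icc 1 N, |G n| ≤ Kc) →
      ∑ v ∈ Ω i, p i v * |∑ n ∈ Icc 1 N, G n * (lamI ((n : ℤ) + ((c i + κκ i * v : ℕ) : ℤ)) - lamzI z ((n : ℤ) + ((c i + κκ i * v : ℕ) : ℤ)))| ≤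
        Kc * δ) (y : Fin s → ℕ) (hy : ∀ i, 2 * y i ≤ N) :
    ∑ m ∈ Fintype.piFinset Ω, (if ¬ Tst η z A (fun i => c i + κκ i * m i) y then ∏ i, p i (m i) else 0) ≤
      s * ((2 * L) ^ s * δ) / (η * A.card) := by
  have hAc : (0 : ℝ) < A.card := by exact_mod_cast hA0
  have hN1 : 1 ≤ N := by
    obtain ⟨x, hx⟩ := card_pos.1 hA0
    have := mem_Icc.1 (hA hx)
    omega
  have hX1 : (1 : ℝ) ≤ (((B + 2) * N : ℕ) : ℝ) := by
    have : 1 ≤ (B + 2) * N := Nat.mul_pos (by omega) hN1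
    exact_mod_cast this
  have hhalf : ∀ i, N / 2 + y i ≤ N := fun i => by have := hy i; omega
  have key := tele_w (N / 2) Ω p hp0 hp1 (fun i n v => avI lamI (y i) (c i + κκ i * v) n)
    (fun i n v => avI (lamzI z) (y i) (c i + κκ i * v) n) (2 * L) δ (by linarith) hδ (by
      intro i n hn v hv
      rw [abs_of_nonneg (avI_nonneg lamI_nonneg _ _ _)]
      apply avI_le (by linarith)
      intro h hh
      rw [mem_Icc] at hn
      rw [mem_Ioc] at hh
      refine (lamI_le _ _ hX1 ?_).trans hlog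
      have h1 := hB i v hv
      have h2 : n + h + (c i + κκ i * v) ≤ (B + 2) * N := by
        have := hhalf i
        rw [add_mul]
        omega
      have h3 : (((n + h : ℕ) : ℤ) + ((c i + κκ i * v : ℕ) : ℤ)) ≤ (((B + 2) * N : ℕ) : ℤ) := by exact_mod_cast h2
      exact_mod_cast h3) (by
      intro i n hn v hv
      rw [abs_of_nonneg (avI_nonneg (lamzI_nonneg z) _ _ _)]
      exact avI_le (by linarith) fun h _ => (lamzI_le z _).trans (by linarith))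
    (fun i => one_avg (hhalf i) (fun v => c i + κκ i * v) lamI (lamzI z) δ (hone i))
    univ 1 one_pos (fun n _ => if n ∈ A then 1 else 0) (by
      intro n _ m _
      split_ifs <;> simp) (by
      intro n m v i _
      rfl)
  rw [card_univ, Fintype.card_fin, one_mul] at key
  have e1 : ∀ m : Fin s → ℕ, ∑ n ∈ Icc 1 (N / 2), (if n ∈ A then (1 : ℝ) else 0) *
      (∏ i, avI lamI (y i) (c i + κκ i * m i) n - ∏ i, avI (lamzI z) (y i) (c i + κκ i * m i) n) =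
      ∑ n ∈ A, (∏ i, avI lamI (y i) (c i + κκ i * m i) n - ∏ i, avI (lamzI z) (y i) (c i + κκ i * m i) n) := by
    intro m
    rw [← sum_subset hA (f := fun n => (if n ∈ A then (1 : ℝ) else 0) *
      (∏ i, avI lamI (y i) (c i + κκ i * m i) n - ∏ i, avI (lamzI z) (y i) (c i + κκ i * m i) n)) (by
        intro n _ hn
        simp only [if_neg hn, zero_mul])]
    apply sum_congr rfl
    intro n hn
    rw [if_pos hn, one_mul]
  simp only [e1] at key
  have hηA : 0 < η * A.card := by positivity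
  rw [le_div_iff₀ hηA]
  refine le_trans ?_ key
  rw [sum_mul]
  apply sum_le_sum
  intro m hm
  have hm' := Fintype.mem_piFinset.1 hm
  have hP0 : 0 ≤ ∏ i, p i (m i) := prod_nonneg fun i _ => hp0 i _ (hm' i)
  by_cases h : Tst η z A (fun i => c i + κκ i * m i) y
  · rw [if_neg (not_not.2 h), zero_mul]
    exact mul_nonneg hP0 (abs_nonneg _)
  · rw [if_pos h]
    unfold Tst at h
    rw [not_le] at h
    exact mul_le_mul_of_nonneg_left h.le hP0

open Classical in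
/-- the core -/
theorem core (s : ℕ) (hs : 1 ≤ s) (B C U B0 : ℕ) (ε : ℝ) (hε : 0 < ε) (hε1 : ε < 1) :
    ∃ K N₀ : ℕ, ∀ N, N₀ ≤ N → ∀ (κκ c : Fin s → ℕ) (Ω : Fin s → Finset ℕ) (p : Fin s → ℕ → ℝ),
    (∀ i, ∀ v ∈ Ω i, 0 ≤ p i v) → (∀ i, ∑ v ∈ Ω i, p i v = 1) → (∀ i, ∀ v ∈ Ω i, c i + κκ i * v ≤ B * N) →
    (∀ z : ℕ, Real.log N ^ B0 ≤ z → (z : ℝ) ≤ Real.log N ^ (B0 + 2) → ∀ i, ∀ Kc : ℝ, 0 < Kc →
      ∀ G : ℕ → ℝ, (∀ n ∈ Icc 1 N, |G n| ≤ Kc) →
      ∑ v ∈ Ω i, p i v * |∑ n ∈ Icc 1 N, G n * (lamI ((n : ℤ) + ((c i + κκ i * v : ℕ) : ℤ)) - lamzI z ((n : ℤ) + ((c i + κκ i * v : ℕ) : ℤ)))| ≤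
        Kc * (N / Real.log N ^ (U + 3 * s + C + 1))) →
    ∀ A : Finset ℕ, A ⊆ Icc 1 (N / 2) → (N : ℝ) ≤ A.card * Real.log N ^ C →
    ∑ m ∈ Fintype.piFinset Ω, (if ¬ Gd ε K N A (fun i => c i + κκ i * m i) then ∏ i, p i (m i) else 0) ≤ 1 / Real.log N ^ U := by
  obtain ⟨η, K, n1, hη, h1⟩ := det_all hs B C (B0 + 2) ε hε hε1
  obtain ⟨n2, h2⟩ := JJ_le hη
  obtain ⟨n3, h3⟩ := Vz_inv_small (B0 + 2)
  obtain ⟨n4, h4⟩ := ev_L' (16 + Real.log ((B + 2 : ℕ) : ℝ) + s * 2 ^ s / η)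
  refine ⟨K, n1 + n2 + n3 + n4 + 16, fun N hN κκ c Ω p hp0 hp1 hpB hone A hA hAN => ?_⟩
  have g1 := h1 N (by omega)
  have g2 := h2 N (by omega)
  have g3 := h3 N (by omega)
  have g4 := h4 N (by omega)
  have hNr : (16 : ℝ) ≤ N := by
    have : 16 ≤ N := by omega
    exact_mod_cast this
  have hN0 : (0 : ℝ) < N := by linarith
  obtain ⟨L, hL⟩ : ∃ L, L = Real.log (N : ℝ) := ⟨_, rfl⟩
  have hB0' : 0 ≤ Real.log ((B + 2 : ℕ) : ℝ) := Real.log_natCast_nonneg _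
  have hd1 : 0 ≤ (s : ℝ) * 2 ^ s / η := by positivity
  rw [← hL] at g1 g2 g3 g4 hone hAN ⊢
  have hL16 : 16 ≤ L := by linarith
  have hL1 : 1 ≤ L := by linarith
  have hL0 : 0 < L := by linarith
  have hLC : 0 < L ^ C := by positivity
  have hAc : (0 : ℝ) < A.card := by
    by_contra hcon
    have : (A.card : ℝ) * L ^ C ≤ 0 := mul_nonpos_of_nonpos_of_nonneg (not_lt.1 hcon) hLC.le
    linarith
  have hA0 : 0 < A.card := by exact_mod_cast hAc
  -- the level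
  obtain ⟨z, hz⟩ : ∃ z, z = ⌈L ^ (B0 + 1)⌉₊ := ⟨_, rfl⟩
  have hz1 : L ^ (B0 + 1) ≤ z := by rw [hz]; exact Nat.le_ceil _
  have hz2 : (z : ℝ) ≤ L ^ (B0 + 2) := by
    have q1 : (z : ℝ) < L ^ (B0 + 1) + 1 := by rw [hz]; exact Nat.ceil_lt_add_one (by positivity)
    have q2 : 1 ≤ L ^ (B0 + 1) := one_le_pow₀ hL1
    rw [pow_succ]
    nlinarith
  have hzn : 1 ≤ z := by
    have : (1 : ℝ) ≤ z := (one_le_pow₀ hL1).trans hz1
    exact_mod_cast this
  have hzL : L ≤ z := by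
    refine le_trans ?_ hz1
    calc L = L ^ 1 := (pow_one _).symm
      _ ≤ _ := pow_le_pow_right₀ hL1 (by omega)
  have hV := g3 z hzn hz2
  have hone' := hone z ((pow_le_pow_right₀ hL1 (by omega)).trans hz1) hz2
  have hlog : Real.log (((B + 2) * N : ℕ) : ℝ) ≤ 2 * L := by
    rw [Nat.cast_mul, Real.log_mul (by positivity) hN0.ne', ← hL]
    linarith
  obtain ⟨T, hT⟩ : ∃ T, T = (Fintype.piFinset (fun _ : Fin s => range (JJ η N))).filter (fun j => ∀ i, 2 * gr η (j i) ≤ N) := ⟨_, rfl⟩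
  obtain ⟨δ, hδ⟩ : ∃ δ, δ = (N : ℝ) / L ^ (U + 3 * s + C + 1) := ⟨_, rfl⟩
  rw [← hδ] at hone'
  have hδ0 : 0 ≤ δ := by rw [hδ]; positivity
  have hpt : ∀ m ∈ Fintype.piFinset Ω, (if ¬ Gd ε K N A (fun i => c i + κκ i * m i) then ∏ i, p i (m i) else 0) ≤
      ∑ j ∈ T, (if ¬ Tst η z A (fun i => c i + κκ i * m i) (fun i => gr η (j i)) then ∏ i, p i (m i) else 0) := by
    intro m hm
    have hm' := Fintype.mem_piFinset.1 hm
    have hP0 : 0 ≤ ∏ i, p i (m i) := prod_nonneg fun i _ => hp0 i _ (hm' i)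
    have ht : ∀ j ∈ T, 0 ≤ (if ¬ Tst η z A (fun i => c i + κκ i * m i) (fun i => gr η (j i)) then ∏ i, p i (m i) else 0) := fun j _ => by
      split_ifs <;> first | exact hP0 | exact le_rfl
    by_cases hG : Gd ε K N A (fun i => c i + κκ i * m i)
    · rw [if_neg (not_not.2 hG)]
      exact sum_nonneg ht
    · rw [if_pos hG]
      have hex : ∃ j ∈ T, ¬ Tst η z A (fun i => c i + κκ i * m i) (fun i => gr η (j i)) := by
        by_contra hcon
        push Not at hcon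
        apply hG
        apply g1 z hzL hz2 A hA hAN _ (fun i => hpB i _ (hm' i))
        intro j hj1 hj2
        apply hcon j
        rw [hT, mem_filter, Fintype.mem_piFinset]
        exact ⟨fun i => mem_range.2 (hj1 i), hj2⟩
      obtain ⟨j, hj1, hj2⟩ := hex
      have h5 := single_le_sum ht hj1
      rw [if_pos hj2] at h5
      exact h5
  refine (sum_le_sum hpt).trans ?_
  rw [sum_comm]
  have hb : ∀ j ∈ T, ∑ m ∈ Fintype.piFinset Ω,
      (if ¬ Tst η z A (fun i => c i + κκ i * m i) (fun i => gr η (j i)) then ∏ i, p i (m i) else 0) ≤ s * ((2 * L) ^ s * δ) / (η * A.card) := by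
    intro j hj
    rw [hT, mem_filter] at hj
    exact tst_prob N z B η L hη A hA hA0 κκ c Ω p hp0 hp1 hpB hL1 hlog hV δ hδ0 hone' (fun i => gr η (j i)) hj.2
  refine (sum_le_sum hb).trans ?_
  rw [sum_const, nsmul_eq_mul]
  have hTc : (T.card : ℝ) ≤ L ^ (2 * s) := by
    have q1 : T.card ≤ (JJ η N) ^ s := by
      rw [hT]
      refine (card_filter_le _ _).trans (le_of_eq ?_)
      rw [Fintype.card_piFinset, prod_const, card_range, card_univ, Fintype.card_fin]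
    calc (T.card : ℝ) ≤ (JJ η N : ℝ) ^ s := by exact_mod_cast q1
      _ ≤ (L ^ 2) ^ s := pow_le_pow_left₀ (Nat.cast_nonneg _) g2 _
      _ = L ^ (2 * s) := (pow_mul _ _ _).symm
  have hdA : δ / A.card ≤ L ^ C / L ^ (U + 3 * s + C + 1) := by
    rw [div_le_div_iff₀ hAc (by positivity), hδ, div_mul_cancel₀ _ (by positivity)]
    linarith
  calc (T.card : ℝ) * (s * ((2 * L) ^ s * δ) / (η * A.card)) ≤ L ^ (2 * s) * (s * ((2 * L) ^ s * δ) / (η * A.card)) :=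
        mul_le_mul_of_nonneg_right hTc (by positivity)
    _ = L ^ (2 * s) * (s * 2 ^ s * L ^ s / η) * (δ / A.card) := by
        rw [mul_pow]
        field_simp
    _ ≤ L ^ (2 * s) * (s * 2 ^ s * L ^ s / η) * (L ^ C / L ^ (U + 3 * s + C + 1)) :=
        mul_le_mul_of_nonneg_left hdA (by positivity)
    _ = (s * 2 ^ s / η) / L * (1 / L ^ U) := by
        have e : L ^ (U + 3 * s + C + 1) = L ^ U * (L ^ (2 * s) * L ^ s) * L ^ C * L := by
          rw [pow_succ, pow_add, pow_add, show 3 * s = 2 * s + s by ring, pow_add]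
        rw [e]
        field_simp
    _ ≤ 1 * (1 / L ^ U) := by
        apply mul_le_mul_of_nonneg_right _ (by positivity)
        rw [div_le_one hL0]
        linarith
    _ = 1 / L ^ U := one_mul _

end Pool.Agent.D0H19.PG
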