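import Pool.Agent.N625.GW.F
import Pool.Agent.D0H19.PG.Prob

set_option autoImplicit false

/-! Primes in several short intervals: families of finite sets of shifts. -/

namespace Pool.Agent.D0H19.PG

open Finset
open Pool.Agent.H373R2.T7

/-- a one shift estimate for a family of finite sets of integers -/
def OneFam (𝒱 : ℕ → Finset ℕ → Prop) (κκ Bc U : ℕ) : Prop :=
  ∃ (A B0 : ℕ) (C : ℝ), 0 ≤ C ∧ ∀ E : ℕ, ∃ N₀ : ℕ, ∀ N, N₀ ≤ N → ∀ V : Finset ℕ, 𝒱 N V →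
    ∀ cc : ℕ, cc ≤ Bc * N → ∃ (Ω : Finset ℕ) (p : ℕ → ℝ),
      (∀ v ∈ Ω, 0 ≤ p v) ∧ ∑ v ∈ Ω, p v = 1 ∧ (∀ v ∈ Ω, cc + κκ * v ≤ A * N) ∧
      (∀ v ∈ V, v ∈ Ω ∧ 1 ≤ C * (V.card : ℝ) * p v) ∧
      ∀ z : ℕ, Real.log N ^ B0 ≤ z → (z : ℝ) ≤ Real.log N ^ E → ∀ Kc : ℝ, 0 < Kc → ∀ G : ℕ → ℝ, (∀ n ∈ Icc 1 N, |G n| ≤ Kc) →
        ∑ v ∈ Ω, p v * |∑ n ∈ Icc 1 N, G n * (lamI ((n : ℤ) + ((cc + κκ * v : ℕ) : ℤ)) - lamzI z ((n : ℤ) + ((cc + κκ * v : ℕ) : ℤ)))| ≤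
          Kc * (N / Real.log N ^ U)

open Classical in
/-- the vectors of shifts in families of finite sets -/
theorem fam_count (s : ℕ) (hs : 1 ≤ s) (𝒱 : Fin s → ℕ → Finset ℕ → Prop) (κκ : Fin s → ℕ) (Bc C U : ℕ) (ε : ℝ) (hε : 0 < ε) (hε1 : ε < 1)
    (h : ∀ i, OneFam (𝒱 i) (κκ i) Bc (U + 1 + 3 * s + C + 1)) : ∃ K N₀ : ℕ, ∀ N, N₀ ≤ N →
    ∀ V : Fin s → Finset ℕ, (∀ i, 𝒱 i N (V i)) →
    ∀ c : Fin s → ℕ, (∀ i, c i ≤ Bc * N) → ∀ A : Finset ℕ, A ⊆ Icc 1 (N / 2) → (N : ℝ) ≤ A.card * Real.log N ^ C →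
    Real.log N ^ U * (((Fintype.piFinset V).filter (fun v => ¬ Gd ε K N A (fun i => c i + κκ i * v i))).card : ℝ) ≤
      ((Fintype.piFinset V).card : ℝ) := by
  choose A0 B0 C0 hC0 hE using h
  obtain ⟨At, hAt⟩ : ∃ At, At = ∑ i, A0 i := ⟨_, rfl⟩
  obtain ⟨Bt, hBt⟩ : ∃ Bt, Bt = ∑ i, B0 i := ⟨_, rfl⟩
  obtain ⟨Ct, hCt⟩ : ∃ Ct, Ct = ∏ i, C0 i := ⟨_, rfl⟩
  have hCt0 : 0 ≤ Ct := by rw [hCt]; exact prod_nonneg fun i _ => hC0 i
  have hAi : ∀ i, A0 i ≤ At := fun i => by rw [hAt]; exact single_le_sum (fun _ _ => Nat.zero_le _) (mem_univ i)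
  have hBi : ∀ i, B0 i ≤ Bt := fun i => by rw [hBt]; exact single_le_sum (fun _ _ => Nat.zero_le _) (mem_univ i)
  choose N1 hN1 using fun i => hE i (Bt + 2)
  obtain ⟨Nt, hNt⟩ : ∃ Nt, Nt = ∑ i, N1 i := ⟨_, rfl⟩
  have hNi : ∀ i, N1 i ≤ Nt := fun i => by rw [hNt]; exact single_le_sum (fun _ _ => Nat.zero_le _) (mem_univ i)
  obtain ⟨K, n1, h1⟩ := core s hs At C (U + 1) Bt ε hε hε1
  obtain ⟨n2, h2⟩ := ev_L' (2 + Ct)
  refine ⟨K, Nt + n1 + n2 + 1, fun N hN V hVV c hc A hA hAN => ?_⟩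
  have hL := h2 N (by omega)
  have g1 := h1 N (by omega)
  obtain ⟨L, hLdef⟩ : ∃ L, L = Real.log (N : ℝ) := ⟨_, rfl⟩
  rw [← hLdef] at hL g1 hAN ⊢
  have hL1 : 1 ≤ L := by linarith
  have hL0 : 0 < L := by linarith
  choose Ω p hp0 hp1 hpA hmem hone using fun i => hN1 i N (by have := hNi i; omega) (V i) (hVV i) (c i) (hc i)
  rw [← hLdef] at hone
  have hbad := g1 κκ c Ω p hp0 hp1 (fun i v hv => (hpA i v hv).trans (Nat.mul_le_mul_right _ (hAi i)))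
    (fun z hz1 hz2 i Kc hKc G hG => hone i z ((pow_le_pow_right₀ hL1 (hBi i)).trans hz1) hz2 Kc hKc G hG) A hA hAN
  -- from weights to numbers
  obtain ⟨F, hF⟩ : ∃ F, F = Fintype.piFinset V := ⟨_, rfl⟩
  have hFc : (F.card : ℝ) = ∏ i, ((V i).card : ℝ) := by
    rw [hF, Fintype.card_piFinset, Nat.cast_prod]
  rw [← hF]
  have hpt : ∀ v ∈ F, v ∈ Fintype.piFinset Ω ∧ 1 ≤ (Ct * F.card) * ∏ i, p i (v i) := by
    intro v hv
    rw [hF, Fintype.mem_piFinset] at hv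
    have hv' : ∀ i, v i ∈ Ω i ∧ 1 ≤ C0 i * ((V i).card : ℝ) * p i (v i) := fun i => hmem i (v i) (hv i)
    refine ⟨Fintype.mem_piFinset.2 fun i => (hv' i).1, ?_⟩
    have h6 : (Ct * F.card) * ∏ i, p i (v i) = ∏ i, (C0 i * ((V i).card : ℝ) * p i (v i)) := by
      rw [hFc, hCt, prod_mul_distrib, prod_mul_distrib]
    rw [h6]
    have h7 : ∏ _i : Fin s, (1 : ℝ) ≤ ∏ i, (C0 i * ((V i).card : ℝ) * p i (v i)) :=
      prod_le_prod (fun _ _ => by norm_num) (fun i _ => (hv' i).2)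
    rwa [prod_const_one] at h7
  have hcount : ((F.filter (fun v => ¬ Gd ε K N A (fun i => c i + κκ i * v i))).card : ℝ) ≤
      (Ct * F.card) * (1 / L ^ (U + 1)) := by
    calc ((F.filter (fun v => ¬ Gd ε K N A (fun i => c i + κκ i * v i))).card : ℝ)
        = ∑ v ∈ F.filter (fun v => ¬ Gd ε K N A (fun i => c i + κκ i * v i)), (1 : ℝ) := by
          rw [sum_const, nsmul_eq_mul, mul_one]
      _ ≤ ∑ v ∈ F.filter (fun v => ¬ Gd ε K N A (fun i => c i + κκ i * v i)), (Ct * F.card) *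
            (if ¬ Gd ε K N A (fun i => c i + κκ i * v i) then ∏ i, p i (v i) else 0) := by
          apply sum_le_sum
          intro v hv
          rw [mem_filter] at hv
          rw [if_pos hv.2]
          exact (hpt v hv.1).2
      _ ≤ ∑ v ∈ Fintype.piFinset Ω, (Ct * F.card) *
            (if ¬ Gd ε K N A (fun i => c i + κκ i * v i) then ∏ i, p i (v i) else 0) := by
          apply sum_le_sum_of_subset_of_nonneg
          · intro v hv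
            exact (hpt v (mem_filter.1 hv).1).1
          · intro v hv _
            have hv' := Fintype.mem_piFinset.1 hv
            apply mul_nonneg (by positivity)
            split_ifs
            · exact le_rfl
            · exact prod_nonneg fun i _ => hp0 i _ (hv' i)
      _ ≤ _ := by
          rw [← mul_sum]
          exact mul_le_mul_of_nonneg_left hbad (by positivity)
  have hF0 : (0 : ℝ) ≤ F.card := Nat.cast_nonneg _
  calc L ^ U * ((F.filter (fun v => ¬ Gd ε K N A (fun i => c i + κκ i * v i))).card : ℝ)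
      ≤ L ^ U * ((Ct * F.card) * (1 / L ^ (U + 1))) := mul_le_mul_of_nonneg_left hcount (by positivity)
    _ = Ct / L * F.card := by
        rw [pow_succ]
        field_simp
    _ ≤ 1 * F.card := by
        apply mul_le_mul_of_nonneg_right _ hF0
        rw [div_le_one hL0]
        linarith
    _ = F.card := one_mul _

open Classical in
lemma fam_os {S : ℕ → Prop} {κκ Bc U : ℕ} (h : Pool.Agent.TH890.OneShift S κκ Bc U) :
    OneFam (fun N V => V = (range N).filter fun v => S v) κκ Bc U := by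
  obtain ⟨A, B0, C, hC, h⟩ := h
  refine ⟨A, B0, C, hC, fun E => ?_⟩
  obtain ⟨N₀, h⟩ := h E
  refine ⟨N₀, fun N hN V hV cc hcc => ?_⟩
  obtain ⟨Ω, p, h1, h2, _, h4, h5, h6⟩ := h N hN cc hcc
  refine ⟨Ω, p, h1, h2, h4, fun v hv => ?_, h6⟩
  rw [hV] at hv ⊢
  rw [mem_filter, mem_range] at hv
  exact h5 v hv.1 hv.2

open Classical in
lemma fam_walk {X : Type} {b : ℕ} {δ : X → ℕ → Option X} (hG : Pool.Agent.N625.GW.Graph b δ) (x : X) (ρ : ℝ) (hρ : 0 < ρ)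
    (hR : Pool.Agent.N625.GW.Rho b δ x ρ) (D κκ B U : ℕ) (hκ : 1 ≤ κκ) :
    OneFam (fun N V => ∃ (k : ℕ) (y : X), b ^ k ≤ B * N ∧ N ≤ B * b ^ k ∧
      ρ ^ k ≤ (k : ℝ) ^ D * (Pool.Agent.N625.GW.walks b δ k x y).card ∧ V = Pool.Agent.N625.GW.walks b δ k x y) κκ B U := by
  obtain ⟨A, B0, h⟩ := Pool.Agent.N625.DY.cls_one κκ (Pool.Agent.N625.GW.w_cls hG x ρ hρ hR D (κκ : ℤ)
    (by exact_mod_cast (by omega : κκ ≠ 0))) B B U
  refine ⟨A, B0, 1, zero_le_one, fun E => ?_⟩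
  obtain ⟨N₀, h⟩ := h E
  refine ⟨N₀, fun N hN V hV cc hcc => ?_⟩
  obtain ⟨k, y, hk1, hk2, hy, rfl⟩ := hV
  obtain ⟨h1, h2, _, h4, h5⟩ := h N hN (range (b ^ k)) (fun v => if v ∈ Pool.Agent.N625.GW.walks b δ k x y then
      1 / ((Pool.Agent.N625.GW.walks b δ k x y).card : ℝ) else 0) ⟨k, hk1, hk2, ⟨y, hy, rfl⟩, rfl⟩ cc hcc
  refine ⟨_, _, h1, h2, h4, fun v hv => ⟨Pool.Agent.N625.GW.w_sub _ _ _ hv, ?_⟩, h5⟩
  have hpos : (0 : ℝ) < (Pool.Agent.N625.GW.walks b δ k x y).card := by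
    exact_mod_cast Pool.Agent.N625.GW.card_pos' hρ hy
  show (1 : ℝ) ≤ 1 * ((Pool.Agent.N625.GW.walks b δ k x y).card : ℝ) * (if v ∈ Pool.Agent.N625.GW.walks b δ k x y then
      1 / ((Pool.Agent.N625.GW.walks b δ k x y).card : ℝ) else 0)
  rw [if_pos hv, one_mul, mul_one_div, div_self hpos.ne']

end Pool.Agent.D0H19.PG
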