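import Pool.Agent.H373R2.T7.Tuple
import Pool.Agent.D0H19.PG.Avg

set_option autoImplicit false

/-! From the von Mangoldt function to the numbers of primes. -/

namespace Pool.Agent.D0H19.PG

open Finset
open Pool.Agent.H373R2.T7

/-- the number of the primes in `(n, n + y]` -/
def pin (n y : ℕ) : ℕ := ((Ioc n (n + y)).filter Nat.Prime).card

/-- the logarithm on the primes -/
noncomputable def omI (k : ℤ) : ℝ := if 1 ≤ k ∧ k.toNat.Prime then Real.log (k.toNat : ℝ) else 0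

lemma omI_nonneg (k : ℤ) : 0 ≤ omI k := by
  unfold omI
  split_ifs
  · exact Real.log_natCast_nonneg _
  · exact le_rfl

lemma omI_le (k : ℤ) : omI k ≤ lamI k := by
  unfold omI lamI
  by_cases h1 : 1 ≤ k
  · by_cases h2 : k.toNat.Prime
    · rw [if_pos ⟨h1, h2⟩, if_pos h1, ArithmeticFunction.vonMangoldt_apply_prime h2]
    · rw [if_neg (fun h => h2 h.2), if_pos h1]
      exact ArithmeticFunction.vonMangoldt_nonneg
  · rw [if_neg (fun h => h1 h.1), if_neg h1]

lemma pin_mono {n y y' : ℕ} (h : y ≤ y') : pin n y ≤ pin n y' := by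
  unfold pin
  apply card_le_card
  intro m hm
  rw [mem_filter, mem_Ioc] at hm ⊢
  exact ⟨⟨hm.1.1, hm.1.2.trans (by omega)⟩, hm.2⟩

lemma pin_le (n y : ℕ) : pin n y ≤ y := by
  unfold pin
  refine (card_filter_le _ _).trans ?_
  rw [Nat.card_Ioc]
  omega

lemma total_pp (X : ℕ) (hX : 1 ≤ X) : ∑ m ∈ Icc 1 X, (lamI (m : ℤ) - omI (m : ℤ)) ≤ 2 * √(X : ℝ) * Real.log X := by
  have h1 := Chebyshev.psi_sub_theta_le (x := (X : ℝ)) (by exact_mod_cast hX)
  refine le_trans (le_of_eq ?_) h1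
  rw [Chebyshev.psi_eq_sum_Icc, Chebyshev.theta_eq_sum_Icc, Nat.floor_natCast, sum_sub_distrib]
  have e0 : Icc 0 X = insert 0 (Icc 1 X) := by
    ext m
    rw [mem_insert, mem_Icc, mem_Icc]
    omega
  congr 1
  · rw [e0, sum_insert (by rw [mem_Icc]; omega), ArithmeticFunction.map_zero, zero_add]
    apply sum_congr rfl
    intro m hm
    rw [mem_Icc] at hm
    unfold lamI
    rw [if_pos (by omega), Int.toNat_natCast]
  · rw [e0, filter_insert, if_neg (by decide), sum_filter]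
    apply sum_congr rfl
    intro m hm
    rw [mem_Icc] at hm
    unfold omI
    rw [Int.toNat_natCast]
    by_cases h : m.Prime
    · rw [if_pos ⟨by omega, h⟩, if_pos h]
    · rw [if_neg (fun h' => h h'.2), if_neg h]

lemma avO_eq (y a n : ℕ) : avI omI y a n = (∑ m ∈ (Ioc (n + a) (n + a + y)).filter Nat.Prime, Real.log (m : ℝ)) / y := by
  unfold avI
  congr 1
  rw [sum_filter]
  have e1 : Ioc (n + a) (n + a + y) = (Ioc 0 y).image (fun h => n + h + a) := by
    ext m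
    rw [mem_Ioc, mem_image]
    constructor
    · intro h
      exact ⟨m - n - a, by rw [mem_Ioc]; omega, by omega⟩
    · rintro ⟨h, h1, rfl⟩
      rw [mem_Ioc] at h1
      omega
  rw [e1, sum_image (by intro x _ y _ h; simpa using h)]
  apply sum_congr rfl
  intro h hh
  rw [mem_Ioc] at hh
  unfold omI
  have e2 : (((n + h : ℕ) : ℤ) + (a : ℤ)).toNat = n + h + a := by omega
  rw [e2]
  by_cases h1 : (n + h + a).Prime
  · rw [if_pos ⟨by omega, h1⟩, if_pos h1]
  · rw [if_neg (fun h' => h1 h'.2), if_neg h1]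

lemma avO_up {y a n : ℕ} {Λ : ℝ} (h : Real.log ((n + a + y : ℕ) : ℝ) ≤ Λ) :
    avI omI y a n ≤ Λ * (pin (n + a) y : ℝ) / y := by
  rw [avO_eq]
  apply div_le_div_of_nonneg_right _ (Nat.cast_nonneg _)
  unfold pin
  rw [mul_comm, ← nsmul_eq_mul, ← sum_const]
  apply sum_le_sum
  intro m hm
  rw [mem_filter, mem_Ioc] at hm
  refine le_trans ?_ h
  apply Real.log_le_log
  · have := hm.2.pos
    exact_mod_cast this
  · exact_mod_cast hm.1.2

lemma avO_low {y a n : ℕ} {lam : ℝ} (hn : 1 ≤ n + a) (h : lam ≤ Real.log ((n + a : ℕ) : ℝ)) :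
    lam * (pin (n + a) y : ℝ) / y ≤ avI omI y a n := by
  rw [avO_eq]
  apply div_le_div_of_nonneg_right _ (Nat.cast_nonneg _)
  unfold pin
  rw [mul_comm, ← nsmul_eq_mul, ← sum_const]
  apply sum_le_sum
  intro m hm
  rw [mem_filter, mem_Ioc] at hm
  refine h.trans ?_
  apply Real.log_le_log
  · exact_mod_cast hn
  · exact_mod_cast hm.1.1.le

/-- differences of products -/
lemma prod_diff {ι : Type} [DecidableEq ι] (J : Finset ι) (P Q : ι → ℝ) (Λ : ℝ) (hΛ : 1 ≤ Λ) (hP : ∀ i ∈ J, |P i| ≤ Λ)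
    (hQ : ∀ i ∈ J, |Q i| ≤ Λ) : |∏ i ∈ J, P i - ∏ i ∈ J, Q i| ≤ Λ ^ J.card * ∑ i ∈ J, |P i - Q i| := by
  induction J using Finset.induction_on with
  | empty => simp
  | insert i J hi ih =>
    have hP' := fun j hj => hP j (mem_insert_of_mem hj)
    have hQ' := fun j hj => hQ j (mem_insert_of_mem hj)
    have ih' := ih hP' hQ'
    rw [prod_insert hi, prod_insert hi, card_insert_of_notMem hi, sum_insert hi]
    have e1 : P i * ∏ j ∈ J, P j - Q i * ∏ j ∈ J, Q j = P i * (∏ j ∈ J, P j - ∏ j ∈ J, Q j) + (P i - Q i) * ∏ j ∈ J, Q j := by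
      ring
    rw [e1]
    refine (abs_add_le _ _).trans ?_
    rw [abs_mul, abs_mul]
    have h1 : |∏ j ∈ J, Q j| ≤ Λ ^ J.card := by
      rw [abs_prod]
      calc ∏ j ∈ J, |Q j| ≤ ∏ _j ∈ J, Λ := prod_le_prod (fun _ _ => abs_nonneg _) hQ'
        _ = Λ ^ J.card := prod_const _
    have h2 : (0 : ℝ) ≤ Λ ^ J.card := by positivity
    have h3 : 0 ≤ ∑ j ∈ J, |P j - Q j| := sum_nonneg fun _ _ => abs_nonneg _
    have h4 : |P i| * |∏ j ∈ J, P j - ∏ j ∈ J, Q j| ≤ Λ * (Λ ^ J.card * ∑ j ∈ J, |P j - Q j|) :=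
      mul_le_mul (hP i (mem_insert_self _ _)) ih' (abs_nonneg _) (by linarith)
    have h5 : |P i - Q i| * |∏ j ∈ J, Q j| ≤ |P i - Q i| * (Λ * Λ ^ J.card) := by
      apply mul_le_mul_of_nonneg_left _ (abs_nonneg _)
      refine h1.trans ?_
      nlinarith
    calc _ ≤ Λ * (Λ ^ J.card * ∑ j ∈ J, |P j - Q j|) + |P i - Q i| * (Λ * Λ ^ J.card) := add_le_add h4 h5
      _ = _ := by ring

end Pool.Agent.D0H19.PG
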